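import Pool.Agent.TH352.SU.Gam

/-! Counting zeros in windows of length proportional to the height. -/

set_option autoImplicit false

open Finset Filter

namespace Pool.Agent.TH352.SU

open Pool.Agent.H345R2.AP (mz)
open H370

lemma ev1 (a b : ℝ) (hb : 0 < b) : ∀ᶠ T : ℝ in atTop, a ≤ b * Real.log T := by
  have := Real.tendsto_log_atTop.eventually_ge_atTop (a / b)
  filter_upwards [this] with T hT
  rw [div_le_iff₀ hb] at hT
  linarith

lemma ev2 (a b : ℝ) (hb : 0 < b) : ∀ᶠ T : ℝ in atTop, a * Real.log T ≤ b * T := by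
  have h1 := Real.isLittleO_log_id_atTop.def (show 0 < b / (|a| + 1) by positivity)
  filter_upwards [h1, eventually_ge_atTop (1 : ℝ)] with T hT hT1
  have h2 : 0 ≤ Real.log T := Real.log_nonneg hT1
  have hT' : Real.log T ≤ b / (|a| + 1) * T := by
    have e1 : ‖Real.log T‖ = Real.log T := by rw [Real.norm_eq_abs, abs_of_nonneg h2]
    have e2 : ‖(id T : ℝ)‖ = T := by rw [id, Real.norm_eq_abs, abs_of_nonneg (by linarith)]
    rw [e1, e2] at hT
    exact hT
  have h3 : a ≤ |a| := le_abs_self a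
  have h4 : (|a| + 1) * Real.log T ≤ b * T := by
    calc (|a| + 1) * Real.log T ≤ (|a| + 1) * (b / (|a| + 1) * T) :=
          mul_le_mul_of_nonneg_left hT' (by positivity)
      _ = b * T := by field_simp
  have h5 : a * Real.log T ≤ (|a| + 1) * Real.log T :=
    mul_le_mul_of_nonneg_right (by linarith) h2
  linarith

lemma log_up (K T y : ℝ) (hK : 0 < K) (hKT : K ≤ T) (hy : 0 < y) (h : y ≤ K * T) :
    Real.log y ≤ 2 * Real.log T := by
  have h1 : K * T ≤ T ^ 2 := by nlinarith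
  calc Real.log y ≤ Real.log (T ^ 2) := Real.log_le_log hy (h.trans h1)
    _ = 2 * Real.log T := by rw [Real.log_pow]; norm_num

lemma num_low (L H C1 ε1 lk ly π2 : ℝ) (hL : 1 ≤ L) (hH : 0 < H) (hC1 : 0 < C1) (hε1 : 0 < ε1)
    (hπ : 0 < π2) (hlk : 0 ≤ lk) (e1 : 6 * (lk + π2 * C1) ≤ ε1 * L)
    (e2 : 24 * (π2 * C1) * L ≤ ε1 * H) (h6 : L - lk ≤ ly) (h7 : ly ^ 2 ≤ 4 * L ^ 2) :
    (1 - ε1) * (H * L / π2) ≤ H * ly / π2 - C1 * (H + ly ^ 2) := by
  have hL0 : 0 < L := by linarith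
  have h1 : H * (L - lk) / π2 ≤ H * ly / π2 := by
    apply div_le_div_of_nonneg_right _ hπ.le
    exact mul_le_mul_of_nonneg_left h6 hH.le
  have h2 : C1 * (H + ly ^ 2) ≤ C1 * (H + 4 * L ^ 2) :=
    mul_le_mul_of_nonneg_left (by linarith) hC1.le
  have h3 : H * lk + π2 * C1 * (H + 4 * L ^ 2) ≤ ε1 * (H * L) := by
    have e4 : H * (6 * (lk + π2 * C1)) ≤ H * (ε1 * L) := mul_le_mul_of_nonneg_left e1 hH.le
    have e5 : (24 * (π2 * C1) * L) * L ≤ (ε1 * H) * L := mul_le_mul_of_nonneg_right e2 hL0.le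
    have e6 : 0 ≤ H * lk := by positivity
    have e7 : 0 ≤ π2 * C1 * H := by positivity
    have e8 : 0 ≤ ε1 * (H * L) := by positivity
    nlinarith
  have h4 : H * lk / π2 + C1 * (H + 4 * L ^ 2) ≤ ε1 * (H * L / π2) := by
    calc H * lk / π2 + C1 * (H + 4 * L ^ 2) = (H * lk + π2 * C1 * (H + 4 * L ^ 2)) / π2 := by
          field_simp
      _ ≤ (ε1 * (H * L)) / π2 := div_le_div_of_nonneg_right h3 hπ.le
      _ = _ := by ring
  have h5 : H * (L - lk) / π2 = H * L / π2 - H * lk / π2 := by ring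
  have h6 : (1 - ε1) * (H * L / π2) = H * L / π2 - ε1 * (H * L / π2) := by ring
  linarith

/-- lower bound for the number of zeros in a window -/
lemma cnt_low (ε1 δ κ K : ℝ) (hε1 : 0 < ε1) (hδ : 0 < δ) (hδκ : δ ≤ κ) (hK : 0 < K) :
    ∃ T1 : ℝ, ∀ T : ℝ, T1 ≤ T → ∀ y : ℝ, κ * T ≤ y → y ≤ K * T →
      (1 - ε1) * (δ * T * Real.log T / (2 * Real.pi)) ≤ (NN riemannZeta y (y + δ * T) : ℝ) := by
  obtain ⟨C1, hC1, hcs⟩ := H965SI.countShort riemannZeta good_zeta
  have hpi := Real.pi_pos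
  have hκ : 0 < κ := lt_of_lt_of_le hδ hδκ
  have hev := (((eventually_ge_atTop (10 / κ)).and (eventually_ge_atTop (3 / δ))).and
    ((eventually_ge_atTop K).and (eventually_ge_atTop (1 : ℝ)))).and
    (((ev1 (6 * (|Real.log κ| + 2 * Real.pi * C1)) ε1 hε1).and
      (ev2 (24 * (2 * Real.pi * C1)) (ε1 * δ) (by positivity))).and (ev1 1 1 one_pos))
  obtain ⟨T2, hT2⟩ := eventually_atTop.mp hev
  refine ⟨T2, fun T hT y hy1 hy2 => ?_⟩
  obtain ⟨⟨⟨hTκ, hTδ⟩, hTK, hT1⟩, ⟨hb1, hb2⟩, hb3⟩ := hT2 T hT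
  rw [div_le_iff₀ hκ] at hTκ
  rw [div_le_iff₀ hδ] at hTδ
  have hT0 : 0 < T := by linarith
  have hy10 : 10 ≤ y := by linarith
  have hH0 : 0 < δ * T := by positivity
  have hHy : δ * T ≤ y := (mul_le_mul_of_nonneg_right hδκ hT0.le).trans hy1
  obtain ⟨h4, -⟩ := hcs y hy10 (δ * T) (by linarith) hHy y (y + δ * T) le_rfl (by linarith)
    (by linarith) le_rfl
  have h5 := (abs_le.1 h4).1
  have h6 : Real.log T - |Real.log κ| ≤ Real.log y := by
    have h7 : Real.log (κ * T) ≤ Real.log y := Real.log_le_log (by positivity) hy1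
    rw [Real.log_mul hκ.ne' hT0.ne'] at h7
    have h10 : -|Real.log κ| ≤ Real.log κ := neg_abs_le _
    linarith
  have h7 : Real.log y ≤ 2 * Real.log T := log_up K T y hK hTK (by linarith) hy2
  have h8 : 0 ≤ Real.log y := Real.log_nonneg (by linarith)
  have h9 : (Real.log y) ^ 2 ≤ 4 * (Real.log T) ^ 2 := by nlinarith
  have h10 := num_low (Real.log T) (δ * T) C1 ε1 |Real.log κ| (Real.log y) (2 * Real.pi)
    (by linarith) hH0 hC1 hε1 (by positivity) (abs_nonneg _) hb1 (by linarith [hb2])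
    h6 h9
  linarith

/-- zeros in a cell of length 2 -/
lemma cell_up (K3 : ℝ) (hK3 : 0 < K3) : ∃ C T1 : ℝ, 0 < C ∧ ∀ T : ℝ, T1 ≤ T → ∀ a : ℝ, 2 ≤ a →
    a ≤ K3 * T → (NN riemannZeta a (a + 2) : ℝ) ≤ C * Real.log T := by
  obtain ⟨C2, hC2, hlong⟩ := NN_long
  refine ⟨4 * C2, max (K3 + 1) 3, by positivity, fun T hT a ha haT => ?_⟩
  have hT1 : K3 + 1 ≤ T := (le_max_left _ _).trans hT
  have hT3 : 3 ≤ T := (le_max_right _ _).trans hT
  have h1 := hlong a 2 ha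
  have h2 : Real.log (a + (2 : ℕ) + 1) ≤ 2 * Real.log T := by
    apply log_up (K3 + 1) T _ (by linarith) hT1 (by push_cast; linarith)
    push_cast
    linarith
  have h3 : ((2 : ℕ) : ℝ) * (C2 * Real.log (a + (2 : ℕ) + 1)) ≤ 4 * C2 * Real.log T := by
    have := mul_le_mul_of_nonneg_left h2 hC2.le
    push_cast at *
    linarith
  have h4 : (NN riemannZeta a (a + 2) : ℝ) = (NN riemannZeta a (a + (2 : ℕ)) : ℝ) := by
    norm_num
  rw [h4]
  exact h1.trans h3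

/-- zeros up to a multiple of the height -/
lemma long_up (K3 : ℝ) (hK3 : 0 < K3) : ∃ C T1 : ℝ, 0 < C ∧ ∀ T : ℝ, T1 ≤ T → ∀ a b : ℝ, 2 ≤ a →
    a ≤ K3 * T → b ≤ K3 * T → (NN riemannZeta a b : ℝ) ≤ C * T * Real.log T := by
  obtain ⟨C2, hC2, hlong⟩ := NN_long
  refine ⟨2 * C2 * (K3 + 1), max (K3 + 1) 3, by positivity, fun T hT a b ha haT hb => ?_⟩
  have hT1 : K3 + 1 ≤ T := (le_max_left _ _).trans hT
  have hT3 : 3 ≤ T := (le_max_right _ _).trans hT
  obtain ⟨n, hn⟩ : ∃ n : ℕ, n = ⌈K3 * T - a⌉₊ := ⟨_, rfl⟩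
  have hn1 : K3 * T - a ≤ n := by rw [hn]; exact Nat.le_ceil _
  have hn2 : (n : ℝ) < K3 * T - a + 1 := by rw [hn]; exact Nat.ceil_lt_add_one (by linarith)
  have h1 := hlong a n ha
  have h2 : Real.log (a + n + 1) ≤ 2 * Real.log T :=
    log_up (K3 + 1) T _ (by linarith) hT1 (by positivity) (by linarith)
  have h3 : NN riemannZeta a b ≤ NN riemannZeta a (a + n) :=
    NN_mono good_zeta (by linarith) le_rfl (by linarith)
  have h4 : (NN riemannZeta a b : ℝ) ≤ NN riemannZeta a (a + n) := by exact_mod_cast h3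
  have hlT : 0 ≤ Real.log T := Real.log_nonneg (by linarith)
  calc (NN riemannZeta a b : ℝ) ≤ n * (C2 * Real.log (a + n + 1)) := h4.trans h1
    _ ≤ n * (C2 * (2 * Real.log T)) := by
        apply mul_le_mul_of_nonneg_left _ (Nat.cast_nonneg n)
        exact mul_le_mul_of_nonneg_left h2 hC2.le
    _ ≤ ((K3 + 1) * T) * (C2 * (2 * Real.log T)) := by
        apply mul_le_mul_of_nonneg_right _ (by positivity)
        linarith
    _ = _ := by ring

end Pool.Agent.TH352.SU
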