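import Pool.Agent.TH352.SU.Cnt
import Pool.Agent.W69.DZ.All

/-! RH: many distinct ordinates in windows of length proportional to the height. -/

set_option autoImplicit false

open Finset Filter

namespace Pool.Agent.TH352.SU

open Pool.Agent.H345R2.AP (mz)
open Pool.Agent.H452R4.LI
open H370

lemma Nd_le_card (hRH : RH0) (a b : ℝ) (h : 1 ≤ a) :
    Nd riemannZeta a b ≤ (Gam a b h).card := by
  have h1 : zset riemannZeta a b ⊆ pt '' (Gam a b h : Set ℝ) := by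
    rintro s ⟨h4, h5, h6, h7, h8⟩
    have h9 : s = pt s.im := by
      apply Complex.ext
      · rw [pt_re]; exact hRH s h4 h5 h8
      · rw [pt_im]
    refine ⟨s.im, ?_, h9.symm⟩
    rw [mem_coe, mem_Gam]
    refine ⟨h6, h7, ?_⟩
    rw [← h9]
    exact h8
  unfold Nd
  calc (zset riemannZeta a b).ncard ≤ (pt '' (Gam a b h : Set ℝ)).ncard :=
        Set.ncard_le_ncard h1 ((Finset.finite_toSet _).image _)
    _ ≤ (Gam a b h : Set ℝ).ncard := Set.ncard_image_le (Finset.finite_toSet _)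
    _ = _ := Set.ncard_coe_finset _

lemma card_low (hRH : RH0) (τ κ K : ℝ) (hτ : 0 < τ) (hτκ : τ ≤ κ) (hK : 0 < K) :
    ∃ c T1 : ℝ, 0 < c ∧ ∀ T : ℝ, T1 ≤ T → ∀ y : ℝ, κ * T ≤ y → y ≤ K * T → ∀ hy : 1 ≤ y,
      c * T * Real.log T ≤ (Gam y (y + τ * T) hy).card := by
  have hκ : 0 < κ := lt_of_lt_of_le hτ hτκ
  have hpi := Real.pi_pos
  obtain ⟨Ta, hTa⟩ := cnt_low (1 / 2) τ κ K (by norm_num) hτ hτκ hK
  obtain ⟨Tb, hTb1, hTb⟩ := W69DZ.short_all good_zeta (9 / 10) (1 / 10) (by norm_num) (by norm_num)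
    (by norm_num)
  have hcc := H295SI.cc_le (9 / 10) (by norm_num) (by norm_num)
  refine ⟨1 / 2 * (1 / 2 * (τ / (2 * Real.pi))), max (max Ta (Tb / κ)) (max 1
    ((K ^ (9 / 10 : ℝ) / τ) ^ (10 : ℕ))), by positivity, fun T hT y hy1 hy2 hy => ?_⟩
  have gTa : Ta ≤ T := ((le_max_left _ _).trans (le_max_left _ _)).trans hT
  have gTb : Tb / κ ≤ T := ((le_max_right _ _).trans (le_max_left _ _)).trans hT
  have g1 : 1 ≤ T := ((le_max_left _ _).trans (le_max_right _ _)).trans hT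
  have gK : (K ^ (9 / 10 : ℝ) / τ) ^ (10 : ℕ) ≤ T :=
    ((le_max_right _ _).trans (le_max_right _ _)).trans hT
  have hT0 : 0 < T := by linarith
  rw [div_le_iff₀ hκ] at gTb
  have h1 := hTa T gTa y hy1 hy2
  have hpow : y ^ (9 / 10 : ℝ) ≤ τ * T := by
    have e1 : y ^ (9 / 10 : ℝ) ≤ (K * T) ^ (9 / 10 : ℝ) :=
      Real.rpow_le_rpow (by linarith) hy2 (by norm_num)
    rw [Real.mul_rpow hK.le hT0.le] at e1
    have e2 : K ^ (9 / 10 : ℝ) / τ ≤ T ^ (1 / 10 : ℝ) := by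
      have e3 : K ^ (9 / 10 : ℝ) / τ = ((K ^ (9 / 10 : ℝ) / τ) ^ (10 : ℕ)) ^ (1 / 10 : ℝ) := by
        rw [← Real.rpow_natCast, ← Real.rpow_mul (by positivity)]
        norm_num
      rw [e3]
      exact Real.rpow_le_rpow (by positivity) gK (by norm_num)
    have e4 : K ^ (9 / 10 : ℝ) ≤ τ * T ^ (1 / 10 : ℝ) := by
      rw [div_le_iff₀ hτ] at e2
      linarith
    have e5 : T ^ (1 / 10 : ℝ) * T ^ (9 / 10 : ℝ) = T := by
      rw [← Real.rpow_add hT0]; norm_num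
    calc y ^ (9 / 10 : ℝ) ≤ K ^ (9 / 10 : ℝ) * T ^ (9 / 10 : ℝ) := e1
      _ ≤ (τ * T ^ (1 / 10 : ℝ)) * T ^ (9 / 10 : ℝ) :=
          mul_le_mul_of_nonneg_right e4 (by positivity)
      _ = τ * T := by rw [mul_assoc, e5]
  obtain ⟨-, h2, h3⟩ := hTb y (by linarith) (τ * T) hpow
    ((mul_le_mul_of_nonneg_right hτκ hT0.le).trans hy1)
  have h4 : (0 : ℝ) ≤ W69DZ.NF riemannZeta y (y + τ * T) := Nat.cast_nonneg _
  have h5 : (0 : ℝ) ≤ W69DZ.EX riemannZeta y (y + τ * T) := Nat.cast_nonneg _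
  have h6 : (0 : ℝ) ≤ NN riemannZeta y (y + τ * T) := Nat.cast_nonneg _
  have h7 : (1 / 2 : ℝ) ≤ (3 - H295SI.cc (9 / 10)) / 2 - 1 / 10 := by
    norm_num at hcc ⊢
    linarith
  have h8 : (1 / 2 : ℝ) * NN riemannZeta y (y + τ * T) ≤
      ((3 - H295SI.cc (9 / 10)) / 2 - 1 / 10) * NN riemannZeta y (y + τ * T) :=
    mul_le_mul_of_nonneg_right h7 h6
  have h9 : (Nd riemannZeta y (y + τ * T) : ℝ) ≤ (Gam y (y + τ * T) hy).card := by
    exact_mod_cast Nd_le_card hRH y (y + τ * T) hy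
  have h10 : 1 / 2 * (1 / 2 * (τ / (2 * Real.pi))) * T * Real.log T =
      1 / 2 * ((1 - 1 / 2) * (τ * T * Real.log T / (2 * Real.pi))) := by ring
  rw [h10]
  linarith

end Pool.Agent.TH352.SU
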