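import Pool.Agent.TH352.SU.KL2
import Pool.Agent.TH352.SU.Dist
import Pool.Agent.H452R4.LI.ZC

/-! RH: the number of distinct values of a linear form at the ordinates up to `T`. -/

set_option autoImplicit false

open Finset Filter

namespace Pool.Agent.TH352.SU

open Pool.Agent.H345R2.AP (mz)
open Pool.Agent.H452R4.LI
open H370

/-- the ordinates in `(0, T]` -/
def OS (T : ℝ) : Set ℝ := {γ : ℝ | 0 < γ ∧ γ ≤ T ∧ riemannZeta (1 / 2 + Complex.I * (γ : ℂ)) = 0}

/-- the values of the linear form `q` at tuples of ordinates in `(0, T]` -/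
def SumSet {m : ℕ} (q : Fin m → ℝ) (T : ℝ) : Set ℝ :=
  {x : ℝ | ∃ γ : Fin m → ℝ, (∀ i, γ i ∈ OS T) ∧ x = ∑ i, q i * γ i}

lemma OS_finite (T : ℝ) : (OS T).Finite := by
  have h1 : OS T ⊆ {γ : ℝ | 0 < γ ∧ γ ≤ 4 ∧ riemannZeta (ZCaux.pt γ) = 0} ∪ GS 1 T := by
    rintro γ ⟨h1, h2, h3⟩
    rcases le_or_gt γ 4 with h4 | h4
    · left; exact ⟨h1, h4, h3⟩
    · right; exact ⟨by linarith, h2, h3⟩
  exact (ZCaux.small_finite.union (GS_finite 1 T le_rfl)).subset h1

lemma SumSet_finite {m : ℕ} (q : Fin m → ℝ) (T : ℝ) : (SumSet q T).Finite := by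
  have h1 : SumSet q T ⊆ (fun γ : Fin m → ℝ => ∑ i, q i * γ i) '' (Set.univ.pi fun _ => OS T) := by
    rintro x ⟨γ, h1, h2⟩
    exact ⟨γ, fun i _ => h1 i, h2.symm⟩
  exact ((Set.Finite.pi fun _ => OS_finite T).image _).subset h1

lemma dens_shift {A : Finset ℝ} {w : ℝ} (h : dens A w) (c : ℝ) :
    dens (A.image (fun a => a + c)) w := by
  intro x
  have h1 : ((A.image (fun a => a + c)).filter (fun a => x ≤ a ∧ a < x + 1)) ⊆
      (A.filter (fun a => x - c ≤ a ∧ a < x - c + 1)).image (fun a => a + c) := by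
    intro z hz
    rw [mem_filter, mem_image] at hz
    obtain ⟨⟨a, ha, rfl⟩, h2, h3⟩ := hz
    rw [mem_image]
    exact ⟨a, mem_filter.2 ⟨ha, by linarith, by linarith⟩, rfl⟩
  have h2 := (card_le_card h1).trans card_image_le
  exact le_trans (by exact_mod_cast h2) (h (x - c))

lemma lin_update {m : ℕ} (q x : Fin m → ℝ) {i0 i1 : Fin m} (h01 : i0 ≠ i1) (a b : ℝ) :
    ∑ i, q i * (Function.update (Function.update x i0 a) i1 b) i =
      q i0 * a + q i1 * b + ∑ i ∈ (univ.erase i0).erase i1, q i * x i := by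
  rw [← add_sum_erase univ _ (mem_univ i0), ← add_sum_erase (univ.erase i0) _
    (mem_erase.mpr ⟨h01.symm, mem_univ i1⟩)]
  have e0 : Function.update (Function.update x i0 a) i1 b i0 = a := by
    rw [Function.update_of_ne h01, Function.update_self]
  have e1 : Function.update (Function.update x i0 a) i1 b i1 = b :=
    Function.update_self _ _ _
  have e2 : ∑ i ∈ (univ.erase i0).erase i1,
      q i * Function.update (Function.update x i0 a) i1 b i =
      ∑ i ∈ (univ.erase i0).erase i1, q i * x i := by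
    refine sum_congr rfl (fun i hi => ?_)
    rw [mem_erase, mem_erase] at hi
    rw [Function.update_of_ne hi.1, Function.update_of_ne hi.2.1]
  rw [e0, e1, e2]; ring

/-- position of the `k`-th window in the variable `i` -/
noncomputable def th {m : ℕ} (q : Fin m → ℝ) (n k : ℕ) (i : Fin m) : ℝ :=
  if 0 < q i then ((k : ℝ) + 1 / 2) / n else 1 - ((k : ℝ) + 1 / 2) / n

/-- centre of the `k`-th window -/
noncomputable def cen {m : ℕ} (q : Fin m → ℝ) (T : ℝ) (n k : ℕ) : ℝ := ∑ i, q i * (th q n k i * T)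

lemma cen_sub {m : ℕ} (q : Fin m → ℝ) (T : ℝ) (n k l : ℕ) :
    cen q T n k - cen q T n l = (∑ i, |q i|) * T * (((k : ℝ) - l) / n) := by
  unfold cen
  rw [← Finset.sum_sub_distrib, Finset.sum_mul, Finset.sum_mul]
  apply Finset.sum_congr rfl
  intro i _
  unfold th
  split_ifs with h
  · rw [abs_of_pos h]; ring
  · rw [abs_of_nonpos (not_lt.1 h)]; ring

lemma th_bd {m : ℕ} (q : Fin m → ℝ) (n k k0 : ℕ) (h1 : k0 ≤ k) (h2 : k + k0 + 1 ≤ n) (i : Fin m) :
    ((k0 : ℝ) + 1 / 2) / n ≤ th q n k i ∧ th q n k i ≤ 1 - ((k0 : ℝ) + 1 / 2) / n := by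
  have hn : (0 : ℝ) < n := by
    have : 0 < n := by omega
    exact_mod_cast this
  have e1 : (k0 : ℝ) ≤ k := by exact_mod_cast h1
  have e2 : (k : ℝ) + k0 + 1 ≤ n := by exact_mod_cast h2
  have e3 : ((k0 : ℝ) + 1 / 2) / n ≤ ((k : ℝ) + 1 / 2) / n :=
    div_le_div_of_nonneg_right (by linarith) hn.le
  have e4 : ((k : ℝ) + 1 / 2) / n + ((k0 : ℝ) + 1 / 2) / n ≤ 1 := by
    rw [← add_div, div_le_one hn]; linarith
  unfold th
  split_ifs
  · exact ⟨e3, by linarith⟩
  · exact ⟨by linarith, by linarith⟩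

/-- one window -/
lemma window (hRH : RH0) (hG : S_GENM) {m : ℕ} (q : Fin m → ℝ) (hq : ∀ i, q i ≠ 0) (j i0 : Fin m)
    (hj : q j = 1) (hij : i0 ≠ j) (n k0 : ℕ) (hn : 0 < n) (ε δ : ℝ) (hε : 0 < ε) (hε1 : ε ≤ 1)
    (hδ : 0 < δ) (hδn : δ * n ≤ ∑ i, |q i|) (hk0 : 2 * (∑ i, |q i|) + 1 ≤ k0) :
    ∃ T1 : ℝ, ∀ T : ℝ, T1 ≤ T → ∀ k : ℕ, k0 ≤ k → k + k0 + 1 ≤ n →
      ∀ S : Finset ℝ, (∀ x ∈ SumSet q T, |x - cen q T n k| ≤ δ * T / 2 → x ∈ S) →
      (∀ x ∈ S, |x - cen q T n k| ≤ δ * T / 2) →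
      (1 - ε) * (δ * T * Real.log T / Real.pi) ≤ S.card := by
  classical
  obtain ⟨Q, hQ⟩ : ∃ Q : ℝ, Q = ∑ i, |q i| := ⟨_, rfl⟩
  rw [← hQ] at hδn hk0
  have hQj : 1 ≤ Q := by
    rw [hQ]
    calc (1 : ℝ) = |q j| := by rw [hj, abs_one]
      _ ≤ _ := single_le_sum (f := fun i => |q i|) (fun i _ => abs_nonneg (q i)) (mem_univ j)
  have hn' : (0 : ℝ) < n := by exact_mod_cast hn
  obtain ⟨τ, hτ⟩ : ∃ τ : ℝ, τ = 1 / (2 * n * Q) := ⟨_, rfl⟩
  have hτ0 : 0 < τ := by rw [hτ]; positivity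
  have hQτ : Q * τ = 1 / (2 * n) := by rw [hτ]; field_simp
  have hτn : τ ≤ 1 / (2 * n) := by
    rw [← hQτ]
    nlinarith
  obtain ⟨κ', hκ'⟩ : ∃ κ' : ℝ, κ' = ((k0 : ℝ) + 1 / 2) / n := ⟨_, rfl⟩
  have hk0' : (1 : ℝ) ≤ k0 := by linarith
  have hκ'0 : 0 < κ' := by rw [hκ']; positivity
  have h2n : 1 / (2 * (n : ℝ)) = (1 / 2) / n := by field_simp
  have hτκ : τ ≤ κ' := by
    refine hτn.trans ?_
    rw [h2n, hκ']
    exact div_le_div_of_nonneg_right (by linarith) hn'.le
  obtain ⟨Cz, hCz, hzc⟩ := zc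
  obtain ⟨c1, Ta, hc1, hcard⟩ := card_low hRH τ κ' 1 hτ0 hτκ one_pos
  obtain ⟨K, hK⟩ : ∃ K : ℝ, K = Q + Cz * (1 / |q i0| + 1) + 1 := ⟨_, rfl⟩
  have hi0 : 0 < |q i0| := abs_pos.2 (hq i0)
  have hKz : 0 < Cz * (1 / |q i0| + 1) := by positivity
  have hK1 : 1 ≤ K := by rw [hK]; linarith
  obtain ⟨Tb, hTb⟩ := kl hRH hG ε δ δ K c1 hε hε1 hδ le_rfl hK1 hc1
  have hev := ((eventually_ge_atTop Ta).and (eventually_ge_atTop Tb)).and
    ((eventually_ge_atTop (3 : ℝ)).and (eventually_ge_atTop (1 / κ')))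
  obtain ⟨T2, hT2⟩ := eventually_atTop.mp hev
  refine ⟨T2, fun T hT k hk1 hk2 S hS1 hS2 => ?_⟩
  obtain ⟨⟨gTa, gTb⟩, g3, gκ⟩ := hT2 T hT
  rw [div_le_iff₀ hκ'0] at gκ
  have hT0 : 0 < T := by linarith
  have hlT : 0 < Real.log T := Real.log_pos (by linarith)
  have hth := th_bd q n k k0 hk1 hk2
  rw [← hκ'] at hth
  have hy1 : ∀ i, 1 ≤ th q n k i * T := fun i => by
    have := mul_le_mul_of_nonneg_right (hth i).1 hT0.le
    linarith
  -- base ordinates
  have hex : ∀ i, ∃ g : ℝ, th q n k i * T < g ∧ g ≤ th q n k i * T + τ * T ∧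
      riemannZeta (pt g) = 0 := by
    intro i
    have h1 := hcard T gTa (th q n k i * T) (mul_le_mul_of_nonneg_right (hth i).1 hT0.le)
      (by
        apply mul_le_mul_of_nonneg_right _ hT0.le
        linarith [(hth i).2]) (hy1 i)
    have h2 : 0 < (Gam (th q n k i * T) (th q n k i * T + τ * T) (hy1 i)).card := by
      have : (0 : ℝ) < (Gam (th q n k i * T) (th q n k i * T + τ * T) (hy1 i)).card :=
        lt_of_lt_of_le (by positivity) h1
      exact_mod_cast this
    obtain ⟨g, hg⟩ := Finset.card_pos.1 h2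
    rw [mem_Gam] at hg
    exact ⟨g, hg⟩
  choose g hg using hex
  obtain ⟨β, hβ⟩ : ∃ β : ℝ, β = ∑ i ∈ (univ.erase i0).erase j, q i * g i := ⟨_, rfl⟩
  -- every point near the base point is an ordinate in (0, T]
  have htau : ∀ i, th q n k i * T + τ * T ≤ T := by
    intro i
    have h1 := mul_le_mul_of_nonneg_right (hth i).2 hT0.le
    have h2 := mul_le_mul_of_nonneg_right hτκ hT0.le
    linarith
  obtain ⟨G0, hG0⟩ : ∃ G0 : Finset ℝ, G0 = Gam (th q n k i0 * T) (th q n k i0 * T + τ * T) (hy1 i0) :=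
    ⟨_, rfl⟩
  have hG0m : ∀ γ ∈ G0, th q n k i0 * T < γ ∧ γ ≤ th q n k i0 * T + τ * T ∧
      riemannZeta (pt γ) = 0 := by
    intro γ hγ
    rw [hG0, mem_Gam] at hγ
    exact hγ
  obtain ⟨B, hB⟩ : ∃ B : Finset ℝ, B = (G0.image (fun γ => q i0 * γ)).image (fun x => x + β) :=
    ⟨_, rfl⟩
  have hBm : ∀ b ∈ B, ∃ γ ∈ G0, b = q i0 * γ + β := by
    intro b hb
    rw [hB, mem_image] at hb
    obtain ⟨x, hx, rfl⟩ := hb
    rw [mem_image] at hx
    obtain ⟨γ, hγ, rfl⟩ := hx
    exact ⟨γ, hγ, rfl⟩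
  have hBcard : B.card = G0.card := by
    rw [hB, card_image_of_injective _ (add_left_injective β),
      card_image_of_injective _ (mul_right_injective₀ (hq i0))]
  -- distance of b from the base point
  have hdist : ∀ b ∈ B, |cen q T n k - b - th q n k j * T| ≤ (1 / 2) / n * T := by
    intro b hb
    obtain ⟨γ, hγ, rfl⟩ := hBm b hb
    have h1 := lin_update q (fun i => th q n k i * T) hij (th q n k i0 * T) (th q n k j * T)
    have h1' : ∑ i, q i * (Function.update (Function.update (fun i => th q n k i * T) i0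
        (th q n k i0 * T)) j (th q n k j * T)) i = cen q T n k := by
      unfold cen
      apply Finset.sum_congr rfl
      intro i _
      congr 1
      rcases eq_or_ne i j with h2 | h2
      · rw [h2, Function.update_self]
      · rw [Function.update_of_ne h2]
        rcases eq_or_ne i i0 with h3 | h3
        · rw [h3, Function.update_self]
        · rw [Function.update_of_ne h3]
    rw [h1', hj, one_mul] at h1
    have h2 : cen q T n k - (q i0 * γ + β) - th q n k j * T =
        q i0 * (th q n k i0 * T - γ) + ∑ i ∈ (univ.erase i0).erase j, q i * (th q n k i * T - g i) := by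
      rw [h1, hβ]
      simp only [mul_sub, Finset.sum_sub_distrib]
      ring
    rw [h2]
    have h3 : |q i0 * (th q n k i0 * T - γ)| ≤ |q i0| * (τ * T) := by
      rw [abs_mul]
      apply mul_le_mul_of_nonneg_left _ (abs_nonneg _)
      obtain ⟨e1, e2, -⟩ := hG0m γ hγ
      have : 0 < τ * T := by positivity
      rw [abs_le]; constructor <;> linarith
    have h4 : |∑ i ∈ (univ.erase i0).erase j, q i * (th q n k i * T - g i)| ≤
        ∑ i ∈ (univ.erase i0).erase j, |q i| * (τ * T) := by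
      refine (abs_sum_le_sum_abs _ _).trans (sum_le_sum fun i _ => ?_)
      rw [abs_mul]
      apply mul_le_mul_of_nonneg_left _ (abs_nonneg _)
      obtain ⟨e1, e2, -⟩ := hg i
      have : 0 < τ * T := by positivity
      rw [abs_le]; constructor <;> linarith
    have h5 : Q = |q i0| + (|q j| + ∑ i ∈ (univ.erase i0).erase j, |q i|) := by
      rw [hQ, ← add_sum_erase univ _ (mem_univ i0), ← add_sum_erase (univ.erase i0) _
        (mem_erase.mpr ⟨hij.symm, mem_univ j⟩)]
    rw [← Finset.sum_mul] at h4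
    have h6 : |q i0 * (th q n k i0 * T - γ) + ∑ i ∈ (univ.erase i0).erase j,
        q i * (th q n k i * T - g i)| ≤ (|q i0| + ∑ i ∈ (univ.erase i0).erase j, |q i|) * (τ * T) := by
      refine (abs_add_le _ _).trans ?_
      rw [add_mul]
      linarith
    have h7 : (|q i0| + ∑ i ∈ (univ.erase i0).erase j, |q i|) * (τ * T) ≤ Q * (τ * T) := by
      apply mul_le_mul_of_nonneg_right _ (by positivity)
      have := abs_nonneg (q j)
      linarith
    have h8 : Q * (τ * T) = (1 / 2) / n * T := by rw [← mul_assoc, hQτ, h2n]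
    linarith
  have hδk : δ ≤ Q / n := by rw [le_div_iff₀ hn']; exact hδn
  have hk0n : (2 * Q + 1) / n ≤ (k0 : ℝ) / n := div_le_div_of_nonneg_right hk0 hn'.le
  have hk0e : κ' = (k0 : ℝ) / n + (1 / 2) / n := by rw [hκ']; ring
  have hQ2 : (2 * Q + 1) / n = 2 * (Q / n) + 1 / n := by ring
  have h1n : 0 < 1 / (n : ℝ) := by positivity
  -- crude sizes
  have hcenT : |cen q T n k| ≤ Q * T := by
    unfold cen
    refine (abs_sum_le_sum_abs _ _).trans ?_
    rw [hQ, Finset.sum_mul]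
    apply sum_le_sum
    intro i _
    rw [abs_mul]
    apply mul_le_mul_of_nonneg_left _ (abs_nonneg _)
    rw [abs_of_nonneg (by linarith [hy1 i])]
    have := htau i
    have : 0 < τ * T := by positivity
    linarith
  have hbT : ∀ b ∈ B, |b| ≤ Q * T := by
    intro b hb
    obtain ⟨γ, hγ, rfl⟩ := hBm b hb
    rw [hβ]
    have h3 : |q i0 * γ| ≤ |q i0| * T := by
      rw [abs_mul]
      apply mul_le_mul_of_nonneg_left _ (abs_nonneg _)
      obtain ⟨e1, e2, -⟩ := hG0m γ hγ
      have := hy1 i0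
      have := htau i0
      rw [abs_le]; constructor <;> linarith
    have h4 : |∑ i ∈ (univ.erase i0).erase j, q i * g i| ≤
        ∑ i ∈ (univ.erase i0).erase j, |q i| * T := by
      refine (abs_sum_le_sum_abs _ _).trans (sum_le_sum fun i _ => ?_)
      rw [abs_mul]
      apply mul_le_mul_of_nonneg_left _ (abs_nonneg _)
      obtain ⟨e1, e2, -⟩ := hg i
      have := hy1 i
      have := htau i
      rw [abs_le]; constructor <;> linarith
    have h5 : Q = |q i0| + (|q j| + ∑ i ∈ (univ.erase i0).erase j, |q i|) := by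
      rw [hQ, ← add_sum_erase univ _ (mem_univ i0), ← add_sum_erase (univ.erase i0) _
        (mem_erase.mpr ⟨hij.symm, mem_univ j⟩)]
    rw [← Finset.sum_mul] at h4
    refine (abs_add_le _ _).trans ?_
    have h6 : Q * T = |q i0| * T + |q j| * T + (∑ i ∈ (univ.erase i0).erase j, |q i|) * T := by
      rw [h5]; ring
    have : 0 ≤ |q j| * T := by positivity
    linarith
  have hKT : Q * T ≤ K * T := by
    apply mul_le_mul_of_nonneg_right _ hT0.le
    rw [hK]; linarith
  have hG0OS : ∀ γ ∈ G0, 0 < γ ∧ γ ≤ T ∧ riemannZeta (1 / 2 + Complex.I * (γ : ℂ)) = 0 := by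
    intro γ hγ
    obtain ⟨e1, e2, e3⟩ := hG0m γ hγ
    have := hy1 i0
    have := htau i0
    exact ⟨by linarith, by linarith, e3⟩
  refine hTb T gTb S B (cen q T n k) ⟨?_, ?_, ?_, ?_, ?_, ?_, hS2⟩
  · exact fun b hb => (hbT b hb).trans hKT
  · rw [hB]
    apply dens_shift
    refine CORaux.dens_mono (CORaux.dens_image (hzc T G0 g3 hG0OS) (hq i0)) ?_
    have : Cz * Real.log T * (1 / |q i0| + 1) = (Cz * (1 / |q i0| + 1)) * Real.log T := by ring
    rw [this]
    apply mul_le_mul_of_nonneg_right _ hlT.le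
    rw [hK]; linarith
  · rw [hBcard, hG0]
    exact hcard T gTa (th q n k i0 * T) (mul_le_mul_of_nonneg_right (hth i0).1 hT0.le)
      (by
        apply mul_le_mul_of_nonneg_right _ hT0.le
        linarith [(hth i0).2]) (hy1 i0)
  · exact hcenT.trans hKT
  · intro b hb
    have h1 := (abs_le.1 (hdist b hb)).1
    have h2 := mul_le_mul_of_nonneg_right (hth j).1 hT0.le
    have h3 : 3 / 2 * δ ≤ κ' - (1 / 2) / n := by
      rw [hk0e]
      have : 0 < Q / n := by positivity
      linarith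
    have h4 := mul_le_mul_of_nonneg_right h3 hT0.le
    linarith
  · intro b hb γ hγ hbg
    obtain ⟨γ0, hγ0, rfl⟩ := hBm b hb
    apply hS1 _ _ hbg
    have h1 := abs_le.1 (hdist _ hb)
    have h2 := abs_le.1 hbg
    have h3 := mul_le_mul_of_nonneg_right (hth j).1 hT0.le
    have h4 := mul_le_mul_of_nonneg_right (hth j).2 hT0.le
    have h5 : δ / 2 + (1 / 2) / n ≤ κ' := by
      rw [hk0e]
      have : 0 < Q / n := by positivity
      linarith
    have h6 := mul_le_mul_of_nonneg_right h5 hT0.le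
    have hγpos : 0 < γ := by
      have h7 : δ / 2 + (1 / 2) / n < κ' := by
        rw [hk0e]
        have : 0 < Q / n := by positivity
        linarith
      have h8 := mul_lt_mul_of_pos_right h7 hT0
      linarith
    have hγT : γ ≤ T := by linarith
    refine ⟨Function.update (Function.update g i0 γ0) j γ, ?_, ?_⟩
    · intro i
      rcases eq_or_ne i j with h7 | h7
      · rw [h7, Function.update_self]
        exact ⟨hγpos, hγT, hγ⟩
      · rw [Function.update_of_ne h7]
        rcases eq_or_ne i i0 with h8 | h8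
        · rw [h8, Function.update_self]
          exact hG0OS γ0 hγ0
        · rw [Function.update_of_ne h8]
          obtain ⟨e1, e2, e3⟩ := hg i
          have := hy1 i
          have := htau i
          exact ⟨by linarith, by linarith, e3⟩
    · rw [lin_update q g hij γ0 γ, hj, hβ]
      ring

end Pool.Agent.TH352.SU
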