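import Pool.Agent.H370R2.Count
import Pool.Agent.H370R2.DirGood
import Pool.Agent.H965R2.SI.CountShort
import Pool.Agent.H345R2.AP.Main
import Pool.Agent.H452R4.LI.Defs

/-! RH: the finite set of ordinates in `(a, b]`, counted with multiplicity. -/

set_option autoImplicit false

open Finset

namespace Pool.Agent.TH352.SU

open Pool.Agent.H345R2.AP (mz)
open Pool.Agent.H452R4.LI
open H370

/-- the point of the critical line -/
noncomputable def pt (γ : ℝ) : ℂ := 1 / 2 + Complex.I * (γ : ℂ)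

lemma pt_re (γ : ℝ) : (pt γ).re = 1 / 2 := by simp [pt]

lemma pt_im (γ : ℝ) : (pt γ).im = γ := by simp [pt]

lemma mz_eq (t : ℝ) : mz t = mult riemannZeta (pt t) := rfl

/-- the set of ordinates of zeros on the critical line in `(a, b]` -/
def GS (a b : ℝ) : Set ℝ := {γ : ℝ | a < γ ∧ γ ≤ b ∧ riemannZeta (pt γ) = 0}

lemma GS_finite (a b : ℝ) (h : 1 ≤ a) : (GS a b).Finite := by
  have h1 := zset_finite good_zeta a b h
  refine (h1.image Complex.im).subset ?_
  intro γ hγ
  refine ⟨pt γ, ⟨?_, ?_, ?_, ?_, hγ.2.2⟩, pt_im γ⟩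
  · rw [pt_re]; norm_num
  · rw [pt_re]; norm_num
  · rw [pt_im]; exact hγ.1
  · rw [pt_im]; exact hγ.2.1

/-- the finite set of ordinates -/
noncomputable def Gam (a b : ℝ) (h : 1 ≤ a) : Finset ℝ := (GS_finite a b h).toFinset

lemma mem_Gam {a b : ℝ} {h : 1 ≤ a} {γ : ℝ} :
    γ ∈ Gam a b h ↔ a < γ ∧ γ ≤ b ∧ riemannZeta (pt γ) = 0 := by
  unfold Gam
  rw [Set.Finite.mem_toFinset]
  rfl

lemma zero_of_mz {t : ℝ} (ht : 0 < t) (h : mz t ≠ 0) : riemannZeta (pt t) = 0 := by
  by_contra hne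
  have han : AnalyticAt ℂ riemannZeta (pt t) := good_zeta.an _ (by rw [pt_im]; exact ht)
  have h0 : analyticOrderAt riemannZeta (pt t) = 0 := han.analyticOrderAt_eq_zero.2 hne
  apply h
  show analyticOrderNatAt riemannZeta (pt t) = 0
  unfold analyticOrderNatAt
  rw [h0]
  rfl

/-- the sum of the multiplicities is at most the number of zeros -/
lemma sum_le_NN (a b : ℝ) (h : 1 ≤ a) (S : Finset ℝ) (hS : ∀ t ∈ S, a < t ∧ t ≤ b) :
    ∑ t ∈ S, (mz t : ℝ) ≤ (NN riemannZeta a b : ℝ) := by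
  classical
  rw [NN_eq_sum good_zeta a b h]
  have h1 : ∑ t ∈ S, (mz t : ℝ) = ∑ t ∈ S.filter (fun t => mz t ≠ 0), (mz t : ℝ) := by
    rw [Finset.sum_filter_of_ne]
    intro x _ hx
    exact_mod_cast hx
  rw [h1]
  have hinj : Set.InjOn pt (S.filter (fun t => mz t ≠ 0) : Finset ℝ) := by
    intro x _ y _ hxy
    have := congrArg Complex.im hxy
    rwa [pt_im, pt_im] at this
  have h2 : ∑ t ∈ S.filter (fun t => mz t ≠ 0), mz t =
      ∑ s ∈ (S.filter (fun t => mz t ≠ 0)).image pt, mult riemannZeta s := by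
    rw [Finset.sum_image hinj]
    rfl
  have h3 : (S.filter (fun t => mz t ≠ 0)).image pt ⊆ (zset_finite good_zeta a b h).toFinset := by
    intro s hs
    rw [mem_image] at hs
    obtain ⟨t, ht, rfl⟩ := hs
    rw [mem_filter] at ht
    rw [Set.Finite.mem_toFinset]
    obtain ⟨h4, h5⟩ := hS t ht.1
    refine ⟨?_, ?_, ?_, ?_, zero_of_mz (by linarith) ht.2⟩
    · rw [pt_re]; norm_num
    · rw [pt_re]; norm_num
    · rw [pt_im]; exact h4
    · rw [pt_im]; exact h5
  have h4 := Finset.sum_le_sum_of_subset_of_nonneg (f := fun s => mult riemannZeta s) h3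
    (fun _ _ _ => Nat.zero_le _)
  rw [← h2] at h4
  exact_mod_cast h4

/-- under RH equality for the set of all ordinates -/
lemma sum_Gam (hRH : RH0) (a b : ℝ) (h : 1 ≤ a) :
    ∑ t ∈ Gam a b h, (mz t : ℝ) = (NN riemannZeta a b : ℝ) := by
  classical
  rw [NN_eq_sum good_zeta a b h]
  have hinj : Set.InjOn pt (Gam a b h : Finset ℝ) := by
    intro x _ y _ hxy
    have := congrArg Complex.im hxy
    rwa [pt_im, pt_im] at this
  have h2 : ∑ t ∈ Gam a b h, mz t = ∑ s ∈ (Gam a b h).image pt, mult riemannZeta s := by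
    rw [Finset.sum_image hinj]
    rfl
  have h3 : (Gam a b h).image pt = (zset_finite good_zeta a b h).toFinset := by
    ext s
    rw [mem_image, Set.Finite.mem_toFinset]
    constructor
    · rintro ⟨t, ht, rfl⟩
      rw [mem_Gam] at ht
      refine ⟨?_, ?_, ?_, ?_, ht.2.2⟩
      · rw [pt_re]; norm_num
      · rw [pt_re]; norm_num
      · rw [pt_im]; exact ht.1
      · rw [pt_im]; exact ht.2.1
    · rintro ⟨h4, h5, h6, h7, h8⟩
      have h9 : s = pt s.im := by
        apply Complex.ext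
        · rw [pt_re]; exact hRH s h4 h5 h8
        · rw [pt_im]
      refine ⟨s.im, ?_, h9.symm⟩
      rw [mem_Gam]
      refine ⟨h6, h7, ?_⟩
      rw [← h9]
      exact h8
  rw [← h3, ← h2]
  push_cast
  rfl

/-- zeros in a long interval: upper bound -/
lemma NN_long : ∃ C : ℝ, 0 < C ∧ ∀ (a : ℝ) (n : ℕ), 2 ≤ a →
    (NN riemannZeta a (a + n) : ℝ) ≤ n * (C * Real.log (a + n + 1)) := by
  obtain ⟨C, hC, hz⟩ := zcount good_zeta
  refine ⟨C, hC, fun a n ha => ?_⟩
  induction n with
  | zero =>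
    have : NN riemannZeta a (a + (0 : ℕ)) = 0 := by
      rw [NN_eq_sum good_zeta _ _ (by linarith)]
      apply Finset.sum_eq_zero
      intro s hs
      rw [Set.Finite.mem_toFinset] at hs
      obtain ⟨_, _, h3, h4, _⟩ := hs
      push_cast at h4
      linarith
    rw [this]
    simp
  | succ n ih =>
    have hn : (0 : ℝ) ≤ n := Nat.cast_nonneg n
    have e : NN riemannZeta a (a + (n + 1 : ℕ)) = NN riemannZeta a (a + n) +
        NN riemannZeta (a + n) (a + (n + 1 : ℕ)) :=
      NN_add good_zeta (by linarith) (by linarith) (by push_cast; linarith)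
    have h1 := hz (a + n + 1) (by linarith)
    have h2 : NN riemannZeta (a + n) (a + (n + 1 : ℕ)) ≤
        NN riemannZeta (a + n + 1 - 1) (a + n + 1 + 1) :=
      NN_mono good_zeta (by linarith) (by linarith) (by push_cast; linarith)
    have h3 : (NN riemannZeta (a + n) (a + (n + 1 : ℕ)) : ℝ) ≤ C * Real.log (a + n + 1) :=
      le_trans (by exact_mod_cast h2) h1
    have h4 : Real.log (a + n + 1) ≤ Real.log (a + (n + 1 : ℕ) + 1) :=
      Real.log_le_log (by linarith) (by push_cast; linarith)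
    rw [e]
    push_cast at *
    have h5 : (n : ℝ) * (C * Real.log (a + n + 1)) ≤ n * (C * Real.log (a + (n + 1) + 1)) := by
      apply mul_le_mul_of_nonneg_left _ hn
      exact mul_le_mul_of_nonneg_left h4 hC.le
    have h6 : C * Real.log (a + n + 1) ≤ C * Real.log (a + (n + 1) + 1) :=
      mul_le_mul_of_nonneg_left h4 hC.le
    nlinarith

end Pool.Agent.TH352.SU
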