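import Pool.Agent.H452R4.LI.Fin

/-! RH: multiplicity version of the general theorem of project LI (adapted from
`Pool.Agent.H452R4.LI.gen`). -/

set_option autoImplicit false

open Finset ArithmeticFunction Filter

namespace Pool.Agent.TH352.SU

open Pool.Agent.H345R2.AP (mz SS SS_nonneg)
open Pool.Agent.H452R4.LI

/-- the multiplicity version -/
def S_GENM : Prop := RH0 → ∀ η ε κ : ℝ, 0 < η → 0 < ε → 0 < κ → ∃ T1 : ℝ, ∀ T : ℝ, T1 ≤ T →
  ∀ (A B : Finset ℝ) (w : ℝ), (∀ a ∈ A, |a| ≤ T) → (∀ b ∈ B, |b| ≤ T) → dens A w → dens B w →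
    η * T ^ 2 * w ^ 2 ≤ A.card * B.card → (∀ a ∈ A, ∀ b ∈ B, κ * T ≤ |a + b|) →
    ∑ x ∈ A ×ˢ B, (mz |x.1 + x.2| : ℝ) ≤ (1 / 2 + ε) * (A.card * B.card)

/-- the block length -/
lemma blk (lam δ L T : ℝ) (hlam0 : 0 < lam) (hδ0 : 0 < δ) (hδ1 : lam + 2 * δ = 2) (hL1 : 1 ≤ L)
    (hTexp : Real.exp L = T) :
    ∃ N : ℕ, 1 ≤ N ∧ Real.sqrt (N : ℝ) ≤ 2 * (T * Real.exp (-(δ / 2 * L))) ∧
      Real.log (N : ℝ) ≤ 4 * L ∧ 0 ≤ Real.log (N : ℝ) ∧ (lam + δ) * L ≤ Real.log (N : ℝ) := by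
  have hL0 : 0 < L := by linarith
  set I : ℕ := ⌈(lam + δ) * L / Real.log 2⌉₊ with hI
  have hlog2 : 0 < Real.log 2 := Real.log_pos (by norm_num)
  have hI1 : (lam + δ) * L ≤ I * Real.log 2 := by
    have := Nat.le_ceil ((lam + δ) * L / Real.log 2)
    rw [div_le_iff₀ hlog2] at this
    exact this
  have hI2 : (I : ℝ) * Real.log 2 ≤ (lam + δ) * L + Real.log 2 := by
    have h1 := Nat.ceil_lt_add_one (show 0 ≤ (lam + δ) * L / Real.log 2 by positivity)
    rw [← hI] at h1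
    have h2 : (I : ℝ) * Real.log 2 ≤ ((lam + δ) * L / Real.log 2 + 1) * Real.log 2 :=
      mul_le_mul_of_nonneg_right h1.le hlog2.le
    have h3 : ((lam + δ) * L / Real.log 2 + 1) * Real.log 2 = (lam + δ) * L + Real.log 2 := by
      rw [add_mul, div_mul_cancel₀ _ hlog2.ne', one_mul]
    linarith
  have hlogN : Real.log ((2 ^ I : ℕ) : ℝ) = I * Real.log 2 := by
    push_cast; rw [Real.log_pow]
  refine ⟨2 ^ I, Nat.one_le_two_pow, ?_, ?_, ?_, ?_⟩
  · have h1 : Real.sqrt ((2 ^ I : ℕ) : ℝ) = Real.exp (I * Real.log 2 / 2) := by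
      rw [Real.sqrt_eq_rpow, Real.rpow_def_of_pos (by positivity), hlogN]
      congr 1; ring
    have h3 : (2 : ℝ) = Real.exp (Real.log 2) := (Real.exp_log (by norm_num)).symm
    rw [h1]
    calc Real.exp (I * Real.log 2 / 2) ≤ Real.exp (Real.log 2 + (L + -(δ / 2 * L))) := by
          apply Real.exp_le_exp.mpr
          have : (lam + δ) * L / 2 = L + -(δ / 2 * L) := by
            rw [show lam = 2 - 2 * δ by linarith]; ring
          linarith
      _ = _ := by rw [Real.exp_add, Real.exp_add, ← h3, hTexp]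
  · rw [hlogN]
    have h3 : lam + δ ≤ 2 := by linarith
    have h4 : Real.log 2 ≤ 1 := by
      have := Real.log_two_lt_d9; linarith
    nlinarith
  · rw [hlogN]; positivity
  · rw [hlogN]; exact hI1

lemma hBb_aux (lam δ L p Lm : ℝ) (hlam0 : 0 < lam) (hlam2 : lam < 2) (hδ0 : 0 < δ)
    (hp : p = 1 + 3 / δ) (hL1 : 1 ≤ L) (hLm : (lam + δ) * L ≤ Lm) :
    Real.exp (p ^ 2 / 2 + p * (lam * L) + (1 - p) * Lm) * (lam * L) ≤
      2 * Real.exp (p ^ 2 / 2) := by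
  have hL0 : 0 < L := by linarith
  have hp1 : 1 ≤ p := by
    rw [hp]; have : 0 < 3 / δ := by positivity
    linarith
  have h1 : p ^ 2 / 2 + p * (lam * L) + (1 - p) * Lm ≤ p ^ 2 / 2 + -L := by
    have h2 : (1 - p) * Lm ≤ (1 - p) * ((lam + δ) * L) :=
      mul_le_mul_of_nonpos_left hLm (by linarith)
    have h3 : p * (lam * L) + (1 - p) * ((lam + δ) * L) = lam * L - 3 * L := by
      rw [hp]; field_simp; ring
    nlinarith
  calc Real.exp (p ^ 2 / 2 + p * (lam * L) + (1 - p) * Lm) * (lam * L)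
      ≤ Real.exp (p ^ 2 / 2 + -L) * (lam * L) :=
        mul_le_mul_of_nonneg_right (Real.exp_le_exp.mpr h1) (by positivity)
    _ = Real.exp (p ^ 2 / 2) * (Real.exp (-L) * L * lam) := by rw [Real.exp_add]; ring
    _ ≤ Real.exp (p ^ 2 / 2) * (1 * 2) := by
        apply mul_le_mul_of_nonneg_left _ (Real.exp_pos _).le
        apply mul_le_mul _ hlam2.le hlam0.le (by norm_num)
        rw [Real.exp_neg, inv_mul_le_iff₀ (Real.exp_pos _), mul_one]
        linarith [Real.add_one_le_exp L]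
    _ = _ := by ring

lemma wX_aux (a b w T η X : ℝ) (ha : 0 ≤ a) (hb : 0 ≤ b) (hw0 : 0 ≤ w) (hTpos : 0 < T)
    (hη : 0 < η) (hX : η * T ^ 2 * w ^ 2 ≤ X) (hXd : X = a * b) :
    w * T * Real.sqrt X ≤ X / Real.sqrt η := by
  have hX0 : 0 ≤ X := by rw [hXd]; positivity
  have hsη : 0 < Real.sqrt η := Real.sqrt_pos.mpr hη
  have hsX : Real.sqrt η * (w * T) ≤ Real.sqrt X := by
    have h1 : Real.sqrt (η * T ^ 2 * w ^ 2) ≤ Real.sqrt X := Real.sqrt_le_sqrt hX
    have h2 : Real.sqrt (η * T ^ 2 * w ^ 2) = Real.sqrt η * (w * T) := by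
      rw [show η * T ^ 2 * w ^ 2 = η * (w * T) ^ 2 by ring, Real.sqrt_mul hη.le,
        Real.sqrt_sq (by positivity)]
    rwa [h2] at h1
  rw [le_div_iff₀ hsη]
  have h1 := Real.mul_self_sqrt hX0
  have h2 := mul_le_mul_of_nonneg_right hsX (Real.sqrt_nonneg X)
  nlinarith

/-- the prime side -/
lemma prime_side (hBIL : S_BIL) : ∃ Cb : ℝ, 0 < Cb ∧ ∀ (A B : Finset ℝ) (T w η : ℝ) (N : ℕ),
    1 ≤ T → 1 ≤ N → 0 < η → (∀ a ∈ A, |a| ≤ T) → (∀ b ∈ B, |b| ≤ T) → dens A w → dens B w →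
    η * T ^ 2 * w ^ 2 ≤ A.card * B.card → Real.sqrt N * (1 + Real.log N) ≤ T →
    ∑ n ∈ Ico 1 N, vonMangoldt n * (n : ℝ) ^ (-(1 / 2 : ℝ)) * (EE A n * EE B n) ≤
      2 * Cb / Real.sqrt η * (A.card * B.card) := by
  obtain ⟨Cb, hCb, hbil⟩ := hBIL
  refine ⟨Cb, hCb, fun A B T w η N hT hN hη hA hB hdA hdB hX hs => ?_⟩
  have hw0 : 0 ≤ w := le_trans (by positivity) (hdA 0)
  have h2 := hbil A B T w N hT hN hA hB hdA hdB
  refine h2.trans ?_
  have hwX := wX_aux A.card B.card w T η (A.card * B.card) (by positivity) (by positivity) hw0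
    (by linarith) hη hX rfl
  calc Cb * w * Real.sqrt (A.card * B.card) * (T + Real.sqrt N * (1 + Real.log N))
      ≤ Cb * w * Real.sqrt (A.card * B.card) * (T + T) := by
        apply mul_le_mul_of_nonneg_left _ (by positivity)
        linarith
    _ = 2 * Cb * (w * T * Real.sqrt (A.card * B.card)) := by ring
    _ ≤ 2 * Cb * ((A.card * B.card) / Real.sqrt η) := mul_le_mul_of_nonneg_left hwX (by positivity)
    _ = _ := by ring

lemma cos_le (hSP : S_SPL) (A B : Finset ℝ) (n : ℕ) :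
    |∑ x ∈ A ×ˢ B, Real.cos ((x.1 + x.2) * Real.log n)| ≤ EE A n * EE B n := by
  classical
  have h := hSP A B 0 n (fun _ => True)
  simp only [Finset.filter_true, not_true_eq_false, Finset.filter_false, card_empty, Nat.cast_zero,
    add_zero] at h
  exact h

/-- the final computation -/
lemma fin_aux (lam ε L C4 S X : ℝ) (hlam0 : 0 < lam) (hinv : 1 / lam = 1 / 2 + ε / 2) (hL0 : 0 < L)
    (hX0 : 0 ≤ X) (hC : C4 ≤ lam * ε / 4 * L) (h : lam * L / 2 * S ≤ X * (L / 2 + C4 / 2)) :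
    S ≤ (1 / 2 + ε / 2 + ε / 4) * X := by
  have h0 : 0 < lam * L / 2 := by positivity
  have h1 : S ≤ X * (L / 2 + C4 / 2) / (lam * L / 2) := by
    rw [le_div_iff₀ h0, mul_comm]
    exact h
  refine h1.trans ?_
  have h2 : X * (L / 2 + C4 / 2) / (lam * L / 2) = (1 / lam + C4 / (lam * L)) * X := by
    field_simp
  rw [h2, hinv]
  apply mul_le_mul_of_nonneg_right _ hX0
  have h3 : C4 / (lam * L) ≤ ε / 4 := by
    rw [div_le_iff₀ (by positivity)]
    refine hC.trans (le_of_eq ?_)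
    ring
  linarith

theorem genM (hGI : S_GI) (hBIL : S_BIL) (hSP : S_SPL) : S_GENM := by
  classical
  intro hRH η ε κ hη hε hκ
  obtain ⟨C, T0, hC, hT0, hmain⟩ := hGI hRH
  obtain ⟨Cb, hCb, hprime⟩ := prime_side hBIL
  obtain ⟨lam, hlam⟩ : ∃ lam : ℝ, lam = 1 / (1 / 2 + ε / 2) := ⟨_, rfl⟩
  have hlam0 : 0 < lam := by rw [hlam]; positivity
  have hinv : 1 / lam = 1 / 2 + ε / 2 := by rw [hlam, one_div_one_div]
  have hlam2 : lam < 2 := by
    have h1 : lam < 1 / (1 / 2) := by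
      rw [hlam]
      apply one_div_lt_one_div_of_lt (by positivity)
      linarith
    rwa [one_div_one_div] at h1
  obtain ⟨δ, hδ⟩ : ∃ δ : ℝ, δ = (2 - lam) / 2 := ⟨_, rfl⟩
  have hδ0 : 0 < δ := by rw [hδ]; linarith
  have hδ1 : lam + 2 * δ = 2 := by rw [hδ]; ring
  have hδ2 : δ ≤ 1 := by linarith
  obtain ⟨p, hp⟩ : ∃ p : ℝ, p = 1 + 3 / δ := ⟨_, rfl⟩
  have hp1 : 1 ≤ p := by
    rw [hp]; have : 0 < 3 / δ := by positivity
    linarith
  have hSS := SS_nonneg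
  obtain ⟨C4, hC4⟩ : ∃ C4 : ℝ, C4 = Real.log 2 + 2 * (2 * Cb / Real.sqrt η +
    2 * Real.exp (p ^ 2 / 2) * SS + C) := ⟨_, rfl⟩
  obtain ⟨ρ, hρ⟩ : ∃ ρ : ℝ, ρ = min 1 (min κ (lam * ε / 4)) := ⟨_, rfl⟩
  have hρ0 : 0 < ρ := by
    rw [hρ]; exact lt_min one_pos (lt_min hκ (by positivity))
  have hρ1 : ρ ≤ 1 := by rw [hρ]; exact min_le_left _ _
  have hρ2 : ρ ≤ κ := by rw [hρ]; exact (min_le_right _ _).trans (min_le_left _ _)
  have hρ3 : ρ ≤ lam * ε / 4 := by rw [hρ]; exact (min_le_right _ _).trans (min_le_right _ _)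
  have hev := (Real.tendsto_log_atTop.eventually
    (ev_growth δ lam T0 ρ C4 hδ0 hlam0 (by linarith) hρ0)).and (eventually_ge_atTop (1 : ℝ))
  obtain ⟨T1, hT1⟩ := eventually_atTop.mp hev
  refine ⟨T1, fun T hT A B w hA hB hdA hdB hX hκT => ?_⟩
  obtain ⟨⟨hL1, hLC, hgr⟩, hTone⟩ := hT1 T hT
  obtain ⟨L, hL⟩ : ∃ L : ℝ, L = Real.log T := ⟨_, rfl⟩
  rw [← hL] at hL1 hLC hgr
  have hL0 : 0 < L := by linarith
  have hTpos : 0 < T := by linarith
  have hTexp : Real.exp L = T := by rw [hL]; exact Real.exp_log hTpos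
  obtain ⟨tm, htm⟩ : ∃ tm : ℝ, tm = T0 + 2 * Real.exp (4 * Real.sqrt (lam * L)) := ⟨_, rfl⟩
  rw [← htm] at hgr
  have htm0 : 0 ≤ tm := by rw [htm]; positivity
  obtain ⟨N, hN1, hsqrt, hlogN4, hlogN0, hlogN⟩ := blk lam δ L T hlam0 hδ0 hδ1 hL1 hTexp
  obtain ⟨X, hXd⟩ : ∃ X : ℝ, X = (A.card : ℝ) * B.card := ⟨_, rfl⟩
  have hX0 : 0 ≤ X := by rw [hXd]; positivity
  have he0 : 0 < Real.exp (-(δ / 2 * L)) := Real.exp_pos _
  have hsN : Real.sqrt (N : ℝ) * (1 + Real.log (N : ℝ)) ≤ T := by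
    have h1 : 2 * (1 + 4 * L) * Real.exp (-(δ / 2 * L)) ≤ 1 := by
      have h2 : 0 ≤ 2 * (1 + 4 * L) * Real.exp (-(δ / 2 * L)) := by positivity
      nlinarith
    calc Real.sqrt (N : ℝ) * (1 + Real.log (N : ℝ))
        ≤ (2 * (T * Real.exp (-(δ / 2 * L)))) * (1 + 4 * L) := by
          apply mul_le_mul hsqrt (by linarith) (by positivity) (by positivity)
      _ = T * (2 * (1 + 4 * L) * Real.exp (-(δ / 2 * L))) := by ring
      _ ≤ T * 1 := mul_le_mul_of_nonneg_left h1 hTpos.le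
      _ = T := mul_one T
  have htmκ : tm ≤ κ * T := by
    have h2 : Real.exp (δ / 2 * L) ≤ T := by
      rw [← hTexp]
      apply Real.exp_le_exp.mpr
      nlinarith
    have h3 : Real.exp (-(δ / 2 * L)) * (2 * tm + 2) ≤ ρ := by
      refine le_trans ?_ hgr
      have h4 : 0 ≤ Real.exp (-(δ / 2 * L)) * (2 * tm + 2) := by positivity
      nlinarith
    have h1 : 2 * tm + 2 ≤ ρ * T := by
      calc 2 * tm + 2 = Real.exp (δ / 2 * L) * (Real.exp (-(δ / 2 * L)) * (2 * tm + 2)) := by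
            rw [← mul_assoc, ← Real.exp_add, add_neg_cancel, Real.exp_zero, one_mul]
        _ ≤ Real.exp (δ / 2 * L) * ρ := mul_le_mul_of_nonneg_left h3 (Real.exp_pos _).le
        _ ≤ T * ρ := mul_le_mul_of_nonneg_right h2 hρ0.le
        _ = ρ * T := mul_comm _ _
    have h3 : ρ * T ≤ κ * T := mul_le_mul_of_nonneg_right hρ2 hTpos.le
    linarith
  have hpr := hprime A B T w η N hTone hN1 hη hA hB hdA hdB hX hsN
  rw [← hXd] at hpr
  have hpr2 : ∑ n ∈ Ico 1 N, vonMangoldt n * (n : ℝ) ^ (-(1 / 2 : ℝ)) *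
      |∑ x ∈ A ×ˢ B, Real.cos ((x.1 + x.2) * Real.log n)| ≤ 2 * Cb / Real.sqrt η * X := by
    refine le_trans (Finset.sum_le_sum fun n _ => ?_) hpr
    exact mul_le_mul_of_nonneg_left (cos_le hSP A B n)
      (mul_nonneg vonMangoldt_nonneg (by positivity))
  have hm := hmain (ℝ × ℝ) (A ×ˢ B) (fun x => x.1 + x.2) (2 * T) (lam * L) p N
    (by positivity) hp1 hN1 (by
      intro x hx
      rw [mem_product] at hx
      have hx1 := hA _ hx.1
      have hx2 := hB _ hx.2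
      have hxP' : tm ≤ |x.1 + x.2| := htmκ.trans (hκT _ hx.1 _ hx.2)
      have he0 : 0 < Real.exp (4 * Real.sqrt (lam * L)) := Real.exp_pos _
      rw [htm] at hxP'
      refine ⟨by linarith, ?_, ?_⟩
      · have h1 : |x.1 + x.2| ≤ |x.1| + |x.2| := abs_add_le _ _
        linarith
      · have h1 : 4 * Real.sqrt (lam * L) ≤ Real.log (|x.1 + x.2| / 2) := by
          rw [Real.le_log_iff_exp_le (by linarith)]
          linarith
        have h2 : 0 ≤ lam * L := by positivity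
        have h3 := Real.mul_self_sqrt h2
        have h4 := Real.sqrt_nonneg (lam * L)
        have h5 : (4 * Real.sqrt (lam * L)) ^ 2 ≤ Real.log (|x.1 + x.2| / 2) ^ 2 :=
          pow_le_pow_left₀ (by positivity) h1 2
        show lam * L ≤ Real.log (|x.1 + x.2| / 2) ^ 2 / 16
        have h6 : (4 * Real.sqrt (lam * L)) ^ 2 = 16 * (lam * L) := by
          rw [mul_pow, Real.sq_sqrt h2]; norm_num
        linarith)
  have hcard : (((A ×ˢ B).card : ℕ) : ℝ) = X := by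
    rw [card_product, hXd]; push_cast; rfl
  rw [hcard, Real.log_mul (by norm_num) hTpos.ne', ← hL] at hm
  have hBb := hBb_aux lam δ L p (Real.log N) hlam0 hlam2 hδ0 hp hL1 hlogN
  have hm2 : lam * L / 2 * ∑ x ∈ A ×ˢ B, (mz |x.1 + x.2| : ℝ) ≤ X * (L / 2 + C4 / 2) := by
    refine hm.trans ?_
    have h2 : X * Real.exp (p ^ 2 / 2 + p * (lam * L) + (1 - p) * Real.log N) * SS * (lam * L) ≤
        X * SS * (2 * Real.exp (p ^ 2 / 2)) := by
      have h1 : X * Real.exp (p ^ 2 / 2 + p * (lam * L) + (1 - p) * Real.log N) *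
        SS * (lam * L) = X * SS * (Real.exp (p ^ 2 / 2 + p * (lam * L) +
        (1 - p) * Real.log N) * (lam * L)) := by ring
      rw [h1]
      exact mul_le_mul_of_nonneg_left hBb (by positivity)
    have h5 : X * (L / 2 + C4 / 2) = X * (Real.log 2 + L) / 2 +
        2 * Cb / Real.sqrt η * X + X * SS * (2 * Real.exp (p ^ 2 / 2)) + X * C := by
      rw [hC4]; ring
    rw [h5]
    linarith
  have hC4' : C4 ≤ lam * ε / 4 * L := hLC.trans (mul_le_mul_of_nonneg_right hρ3 hL0.le)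
  have hm3 := fin_aux lam ε L C4 _ X hlam0 hinv hL0 hX0 hC4' hm2
  refine hm3.trans ?_
  rw [← hXd]
  apply mul_le_mul_of_nonneg_right _ hX0
  linarith

end Pool.Agent.TH352.SU
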