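import Pool.Agent.TH352.SU.Gam
import Pool.Agent.TH352.SU.GenM
import Pool.Agent.H452R4.LI.COR

/-! RH: local density of the sumset of a dense set and the ordinates. -/

set_option autoImplicit false

open Finset Filter

namespace Pool.Agent.TH352.SU

open Pool.Agent.H345R2.AP (mz)
open Pool.Agent.H452R4.LI
open H370

lemma img_sum_le {ι : Type*} (R : Finset ι) (f : ι → ℝ) (hf : Set.InjOn f R) (a b : ℝ)
    (h : 1 ≤ a) (hR : ∀ s ∈ R, a < f s ∧ f s ≤ b) :
    ∑ s ∈ R, (mz (f s) : ℝ) ≤ (NN riemannZeta a b : ℝ) := by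
  classical
  have h1 : ∑ s ∈ R, (mz (f s) : ℝ) = ∑ t ∈ R.image f, (mz t : ℝ) := by
    rw [Finset.sum_image hf]
  rw [h1]
  apply sum_le_NN a b h
  intro t ht
  rw [mem_image] at ht
  obtain ⟨s, hs, rfl⟩ := ht
  exact hR s hs

/-- pruning: remove the cells with many elements -/
lemma prune (S : Finset ℝ) (x0 w : ℝ) (hw : 0 < w) :
    ∃ S' Sb : Finset ℝ, ∃ V : Finset ℤ, S' ⊆ S ∧ Sb ⊆ S ∧ S' ∪ Sb = S ∧ Disjoint S' Sb ∧
      dens S' (2 * w) ∧ (∀ s ∈ Sb, ⌊s - x0⌋ ∈ V) ∧ (V.card : ℝ) * w ≤ S.card ∧
      (∀ v ∈ V, ∃ s ∈ S, ⌊s - x0⌋ = v) := by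
  classical
  set k : ℝ → ℤ := fun s => ⌊s - x0⌋ with hk
  set P : ℝ → Prop := fun s => ((S.filter (fun s' => k s' = k s)).card : ℝ) ≤ w with hP
  refine ⟨S.filter P, S.filter (fun s => ¬ P s), (S.filter (fun s => ¬ P s)).image k,
    filter_subset _ _, filter_subset _ _, ?_, ?_, ?_, ?_, ?_, ?_⟩
  · exact Finset.filter_union_filter_not_eq P S
  · exact Finset.disjoint_filter_filter_not _ _ _
  · intro x
    have hcell : ∀ v : ℤ, (((S.filter P).filter (fun s => k s = v)).card : ℝ) ≤ w := by
      intro v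
      by_cases hne : ((S.filter P).filter (fun s => k s = v)).Nonempty
      · obtain ⟨s, hs⟩ := hne
        rw [mem_filter, mem_filter] at hs
        have h1 : ((S.filter P).filter (fun s => k s = v)) ⊆ S.filter (fun s' => k s' = k s) := by
          intro t ht
          rw [mem_filter, mem_filter] at ht
          rw [mem_filter]
          exact ⟨ht.1.1, by rw [ht.2, hs.2]⟩
        have h2 : (((S.filter P).filter (fun s => k s = v)).card : ℝ) ≤
            (S.filter (fun s' => k s' = k s)).card := by exact_mod_cast card_le_card h1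
        exact h2.trans hs.1.2
      · rw [not_nonempty_iff_eq_empty] at hne
        rw [hne]
        simpa using hw.le
    have hsub : ((S.filter P).filter (fun a => x ≤ a ∧ a < x + 1)) ⊆
        ((S.filter P).filter (fun s => k s = k x)) ∪ ((S.filter P).filter (fun s => k s = k x + 1)) := by
      intro s hs
      rw [mem_filter] at hs
      obtain ⟨hs1, hs2, hs3⟩ := hs
      rw [mem_union]
      have h1 : k x ≤ k s := Int.floor_le_floor (by linarith)
      have h2 : k s ≤ k x + 1 := by
        have : k s ≤ ⌊x - x0 + 1⌋ := Int.floor_le_floor (by linarith)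
        rwa [Int.floor_add_one] at this
      rcases h1.eq_or_lt with h3 | h3
      · left; exact mem_filter.2 ⟨hs1, h3.symm⟩
      · right; exact mem_filter.2 ⟨hs1, by omega⟩
    have h1 := (card_le_card hsub).trans (card_union_le _ _)
    have h2 : ((((S.filter P).filter (fun a => x ≤ a ∧ a < x + 1)).card : ℕ) : ℝ) ≤
        (((S.filter P).filter (fun s => k s = k x)).card : ℝ) +
        (((S.filter P).filter (fun s => k s = k x + 1)).card : ℝ) := by exact_mod_cast h1
    have h3 := hcell (k x)
    have h4 := hcell (k x + 1)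
    linarith
  · intro s hs
    exact mem_image_of_mem k hs
  · set V := (S.filter (fun s => ¬ P s)).image k with hV
    have h1 : ∀ v ∈ V, w ≤ ((S.filter (fun s => k s = v)).card : ℝ) := by
      intro v hv
      rw [hV, mem_image] at hv
      obtain ⟨s, hs, rfl⟩ := hv
      rw [mem_filter] at hs
      have h2 : ¬ ((S.filter (fun s' => k s' = k s)).card : ℝ) ≤ w := hs.2
      exact (not_le.1 h2).le
    have h2 : ∑ v ∈ V, (S.filter (fun s => k s = v)).card ≤ S.card := by
      have h3 : (S.filter (fun s => k s ∈ V)).card =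
          ∑ v ∈ V, ((S.filter (fun s => k s ∈ V)).filter (fun s => k s = v)).card := by
        apply Finset.card_eq_sum_card_fiberwise
        intro s hs
        rw [mem_coe, mem_filter] at hs
        exact hs.2
      have h4 : ∑ v ∈ V, ((S.filter (fun s => k s ∈ V)).filter (fun s => k s = v)).card =
          ∑ v ∈ V, (S.filter (fun s => k s = v)).card := by
        apply Finset.sum_congr rfl
        intro v hv
        congr 1
        ext s
        simp only [mem_filter]
        constructor
        · rintro ⟨⟨h5, _⟩, h6⟩; exact ⟨h5, h6⟩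
        · rintro ⟨h5, h6⟩; exact ⟨⟨h5, by rw [h6]; exact hv⟩, h6⟩
      rw [← h4, ← h3]
      exact card_filter_le _ _
    calc (V.card : ℝ) * w = ∑ v ∈ V, w := by rw [sum_const, nsmul_eq_mul]
      _ ≤ ∑ v ∈ V, ((S.filter (fun s => k s = v)).card : ℝ) := sum_le_sum h1
      _ ≤ S.card := by exact_mod_cast h2
  · intro v hv
    rw [mem_image] at hv
    obtain ⟨s, hs, hv⟩ := hv
    exact ⟨s, (mem_filter.1 hs).1, hv⟩

end Pool.Agent.TH352.SU
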