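import Pool.Agent.TH352.SU.KL
import Pool.Agent.TH352.SU.Cnt

/-! RH: local density of the sumset of a dense set and the ordinates. -/

set_option autoImplicit false

open Finset Filter

namespace Pool.Agent.TH352.SU

open Pool.Agent.H345R2.AP (mz)
open Pool.Agent.H452R4.LI
open H370

/-- the hypotheses on the sets -/
structure Cfg (T δ κ K η : ℝ) (S B : Finset ℝ) (c : ℝ) : Prop where
  hB : ∀ b ∈ B, |b| ≤ K * T
  hdB : dens B (K * Real.log T)
  hBc : η * T * Real.log T ≤ B.card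
  hc : |c| ≤ K * T
  hw : ∀ b ∈ B, κ * T ≤ c - δ * T / 2 - b
  hS : ∀ b ∈ B, ∀ γ : ℝ, riemannZeta (pt γ) = 0 → |b + γ - c| ≤ δ * T / 2 → b + γ ∈ S
  hS2 : ∀ s ∈ S, |s - c| ≤ δ * T / 2

lemma cfg_low (hRH : RH0) {T δ κ K η : ℝ} {S B : Finset ℝ} {c : ℝ} (h : Cfg T δ κ K η S B c)
    (h1 : 1 ≤ κ * T) {b : ℝ} (hb : b ∈ B) :
    (NN riemannZeta (c - δ * T / 2 - b) (c - δ * T / 2 - b + δ * T) : ℝ) ≤
      ∑ s ∈ S, (mz (s - b) : ℝ) := by
  classical
  have hwb := h.hw b hb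
  rw [← sum_Gam hRH _ _ (by linarith)]
  have h2 : ∑ t ∈ Gam (c - δ * T / 2 - b) (c - δ * T / 2 - b + δ * T) (by linarith), (mz t : ℝ) =
      ∑ s ∈ (Gam (c - δ * T / 2 - b) (c - δ * T / 2 - b + δ * T) (by linarith)).image
        (fun t => b + t), (mz (s - b) : ℝ) := by
    rw [Finset.sum_image (fun x _ z _ h => by linarith [show b + x = b + z from h])]
    apply Finset.sum_congr rfl
    intro t _
    rw [add_sub_cancel_left]
  rw [h2]
  apply Finset.sum_le_sum_of_subset_of_nonneg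
  · intro s hs
    rw [mem_image] at hs
    obtain ⟨t, ht, rfl⟩ := hs
    rw [mem_Gam] at ht
    apply h.hS b hb t ht.2.2
    rw [abs_le]
    constructor <;> linarith [ht.1, ht.2.1]
  · intros; positivity

lemma cfg_bad {T δ κ K η : ℝ} {S B : Finset ℝ} {c : ℝ} (h : Cfg T δ κ K η S B c)
    (hδT : 0 ≤ δ * T) (hκT : 3 ≤ κ * T) (Cc W : ℝ)
    (hcell : ∀ a : ℝ, 2 ≤ a → a ≤ (2 * K + δ) * T → (NN riemannZeta a (a + 2) : ℝ) ≤ Cc)
    (Sb : Finset ℝ) (V : Finset ℤ)
    (hSbV : ∀ s ∈ Sb, ⌊s - (c - δ * T / 2)⌋ ∈ V) (hVS : ∀ v ∈ V, ∃ s ∈ S, ⌊s - (c - δ * T / 2)⌋ = v)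
    (hV : (V.card : ℝ) * Cc ≤ W) {b : ℝ} (hb : b ∈ B) :
    ∑ s ∈ Sb, (mz (s - b) : ℝ) ≤ W := by
  classical
  have hwb := h.hw b hb
  have hbb := abs_le.1 (h.hB b hb)
  have hcb := abs_le.1 h.hc
  rw [← Finset.sum_fiberwise_of_maps_to (s := Sb) (t := V) (g := fun s => ⌊s - (c - δ * T / 2)⌋)
    hSbV]
  have h5 : ∀ v ∈ V, ∑ s ∈ Sb.filter (fun s => ⌊s - (c - δ * T / 2)⌋ = v), (mz (s - b) : ℝ) ≤
      Cc := by
    intro v hv
    obtain ⟨s0, hs0, hs0v⟩ := hVS v hv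
    have hs0' := abs_le.1 (h.hS2 s0 hs0)
    have hv0 : (0 : ℝ) ≤ v := by
      have : (0 : ℤ) ≤ v := by
        rw [← hs0v]
        apply Int.floor_nonneg.2
        linarith
      exact_mod_cast this
    have hvH : (v : ℝ) ≤ δ * T := by
      have := Int.floor_le (s0 - (c - δ * T / 2))
      rw [hs0v] at this
      linarith
    have h7 := hcell (c - δ * T / 2 - b + v - 1) (by linarith) (by linarith)
    have h6 := img_sum_le (Sb.filter (fun s => ⌊s - (c - δ * T / 2)⌋ = v)) (fun s => s - b)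
      (fun x _ z _ h => by simpa using h) (c - δ * T / 2 - b + v - 1)
      (c - δ * T / 2 - b + v - 1 + 2) (by linarith) (by
        intro s hs
        rw [mem_filter] at hs
        have e1 := Int.floor_le (s - (c - δ * T / 2))
        have e2 := Int.lt_floor_add_one (s - (c - δ * T / 2))
        rw [hs.2] at e1 e2
        constructor
        · show c - δ * T / 2 - b + v - 1 < s - b
          linarith
        · show s - b ≤ c - δ * T / 2 - b + v - 1 + 2
          linarith)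
    exact h6.trans h7
  refine (Finset.sum_le_sum h5).trans ?_
  rw [sum_const, nsmul_eq_mul]
  exact hV

lemma cfg_up {T δ κ K η : ℝ} {S B : Finset ℝ} {c : ℝ} (h : Cfg T δ κ K η S B c)
    (hδT : 0 ≤ δ * T) (hκT : 3 ≤ κ * T) (Cl : ℝ)
    (hlong : ∀ a b : ℝ, 2 ≤ a → a ≤ (2 * K + δ) * T → b ≤ (2 * K + δ) * T →
      (NN riemannZeta a b : ℝ) ≤ Cl) (hCl : 0 ≤ Cl) {s : ℝ} (hs : s ∈ S) :
    ∑ b ∈ B, (mz (s - b) : ℝ) ≤ Cl := by
  rcases B.eq_empty_or_nonempty with h0 | ⟨b0, hb0⟩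
  · rw [h0]; simpa using hCl
  · have hcb := abs_le.1 h.hc
    have hs' := abs_le.1 (h.hS2 s hs)
    have hκ2 : κ * T - 1 ≤ (2 * K + δ) * T := by
      have hwb := h.hw b0 hb0
      have hbb := abs_le.1 (h.hB b0 hb0)
      linarith
    have h6 := img_sum_le B (fun b => s - b) (fun x _ z _ h => by simpa using h)
      (κ * T - 1) ((2 * K + δ) * T) (by linarith) (by
        intro b hb
        have hbb := abs_le.1 (h.hB b hb)
        have hwb := h.hw b hb
        constructor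
        · show κ * T - 1 < s - b
          linarith
        · show s - b ≤ (2 * K + δ) * T
          linarith)
    exact h6.trans (hlong _ _ (by linarith) hκ2 le_rfl)

theorem kl (hRH : RH0) (hG : S_GENM) (ε δ κ K η : ℝ) (hε : 0 < ε) (hε1 : ε ≤ 1) (hδ : 0 < δ)
    (hδκ : δ ≤ κ) (hK : 1 ≤ K) (hη : 0 < η) : ∃ T1 : ℝ, ∀ T : ℝ, T1 ≤ T →
    ∀ (S B : Finset ℝ) (c : ℝ), Cfg T δ κ K η S B c →
      (1 - ε) * (δ * T * Real.log T / Real.pi) ≤ S.card := by
  classical
  have hpi := Real.pi_pos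
  have hκ : 0 < κ := lt_of_lt_of_le hδ hδκ
  obtain ⟨ε1, hε1d⟩ : ∃ ε1 : ℝ, ε1 = ε / 8 := ⟨_, rfl⟩
  have hε10 : 0 < ε1 := by rw [hε1d]; positivity
  have hε1s : ε1 ≤ 1 / 8 := by rw [hε1d]; linarith
  obtain ⟨Ta, hTa⟩ := cnt_low ε1 δ κ (2 * K) hε10 hδ hδκ (by linarith)
  obtain ⟨Cc, Tb, hCc, hcell⟩ := cell_up (2 * K + δ) (by linarith)
  obtain ⟨Cl, Td, hCl, hlong⟩ := long_up (2 * K + δ) (by linarith)
  obtain ⟨M, hM⟩ : ∃ M : ℝ, M = 2 * Cc / ε1 := ⟨_, rfl⟩
  have hM0 : 0 < M := by rw [hM]; positivity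
  obtain ⟨K', hK'⟩ : ∃ K' : ℝ, K' = 2 * K + δ := ⟨_, rfl⟩
  have hK'0 : 0 < K' := by rw [hK']; linarith
  obtain ⟨η', hη'⟩ : ∃ η' : ℝ, η' = η ^ 2 * δ / (4 * Real.pi * Cl) /
    (K' ^ 2 * (2 * M + 2 * K) ^ 2) := ⟨_, rfl⟩
  have hη'0 : 0 < η' := by rw [hη']; positivity
  obtain ⟨T1, hT1⟩ := hG hRH η' ε1 (κ / K') hη'0 hε10 (by positivity)
  have hev := (((eventually_ge_atTop Ta).and (eventually_ge_atTop Tb)).and
    ((eventually_ge_atTop Td).and (eventually_ge_atTop (T1 / K')))).and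
    (((eventually_ge_atTop (3 / κ)).and (eventually_ge_atTop (1 : ℝ))).and (ev1 1 1 one_pos))
  obtain ⟨T2, hT2⟩ := eventually_atTop.mp hev
  refine ⟨T2, fun T hT S B c h => ?_⟩
  obtain ⟨⟨⟨gTa, gTb⟩, gTd, gT1⟩, ⟨gκ, gT⟩, gL⟩ := hT2 T hT
  rw [div_le_iff₀ hκ] at gκ
  rw [div_le_iff₀ hK'0] at gT1
  have hT0 : 0 < T := by linarith
  obtain ⟨L, hL⟩ : ∃ L : ℝ, L = Real.log T := ⟨_, rfl⟩
  have hL0 : 0 < L := by rw [hL]; linarith
  obtain ⟨H, hH⟩ : ∃ H : ℝ, H = δ * T := ⟨_, rfl⟩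
  have hH0 : 0 < H := by rw [hH]; positivity
  have hκT : 3 ≤ κ * T := by linarith
  by_contra hcon
  push Not at hcon
  rw [← hL, ← hH] at hcon
  have hScard : (S.card : ℝ) ≤ H * L / Real.pi := by
    have h1 : (1 - ε) * (H * L / Real.pi) ≤ 1 * (H * L / Real.pi) :=
      mul_le_mul_of_nonneg_right (by linarith) (by positivity)
    linarith
  obtain ⟨S', Sb, V, hS'S, hSbS, hun, hdisj, hdens, hSbV, hVc, hVS⟩ :=
    prune S (c - δ * T / 2) (M * L) (by positivity)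
  have hVc2 : (V.card : ℝ) * (Cc * L) ≤ ε1 * (H * L / (2 * Real.pi)) := by
    have h1 : (V.card : ℝ) * (M * L) ≤ H * L / Real.pi := hVc.trans hScard
    have h2 : (V.card : ℝ) * (Cc * L) = ε1 / 2 * ((V.card : ℝ) * (M * L)) := by
      rw [hM]; field_simp
    rw [h2]
    calc ε1 / 2 * ((V.card : ℝ) * (M * L)) ≤ ε1 / 2 * (H * L / Real.pi) :=
          mul_le_mul_of_nonneg_left h1 (by positivity)
      _ = _ := by ring
  obtain ⟨P0, hP0⟩ : ∃ P0 : ℝ, P0 = (1 - 2 * ε1) * (H * L / (2 * Real.pi)) := ⟨_, rfl⟩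
  have hlow : ∀ b ∈ B, P0 ≤ ∑ s ∈ S', (mz (s - b) : ℝ) := by
    intro b hb
    have hbb := abs_le.1 (h.hB b hb)
    have hcb := abs_le.1 h.hc
    have h1 := cfg_low hRH h (by linarith) hb
    have h2 := hTa T gTa (c - δ * T / 2 - b) (h.hw b hb) (by
      have : 0 < δ * T := by positivity
      linarith)
    rw [← hL, ← hH] at h2
    rw [← hH] at h1
    have h3 := cfg_bad h (by positivity) hκT (Cc * Real.log T) (ε1 * (H * L / (2 * Real.pi)))
      (hcell T gTb) Sb V hSbV hVS (by rw [← hL]; exact hVc2) hb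
    have h5 : ∑ s ∈ S, (mz (s - b) : ℝ) =
        ∑ s ∈ S', (mz (s - b) : ℝ) + ∑ s ∈ Sb, (mz (s - b) : ℝ) := by
      rw [← hun, Finset.sum_union hdisj]
    have h6 : P0 = (1 - ε1) * (H * L / (2 * Real.pi)) - ε1 * (H * L / (2 * Real.pi)) := by
      rw [hP0]; ring
    linarith
  have hsum : (B.card : ℝ) * P0 ≤ ∑ b ∈ B, ∑ s ∈ S', (mz (s - b) : ℝ) := by
    calc (B.card : ℝ) * P0 = ∑ b ∈ B, P0 := by rw [sum_const, nsmul_eq_mul]
      _ ≤ _ := Finset.sum_le_sum hlow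
  have hP0l : H * L / (4 * Real.pi) ≤ P0 := by
    have : H * L / (4 * Real.pi) = (1 / 2) * (H * L / (2 * Real.pi)) := by ring
    rw [this, hP0]
    apply mul_le_mul_of_nonneg_right _ (by positivity)
    linarith
  have hBc := h.hBc
  rw [← hL] at hBc
  have hBpos : 0 < (B.card : ℝ) := lt_of_lt_of_le (by positivity) hBc
  have hup : ∀ s ∈ S', ∑ b ∈ B, (mz (s - b) : ℝ) ≤ Cl * T * L := by
    intro s hs
    have := cfg_up h (by positivity) hκT (Cl * T * Real.log T) (hlong T gTd)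
      (by rw [← hL]; positivity) (hS'S hs)
    rwa [← hL] at this
  have hsum2 : ∑ b ∈ B, ∑ s ∈ S', (mz (s - b) : ℝ) ≤ S'.card * (Cl * T * L) := by
    rw [Finset.sum_comm]
    refine (Finset.sum_le_sum hup).trans ?_
    rw [sum_const, nsmul_eq_mul]
  have hS'l : η * δ / (4 * Real.pi * Cl) * (T * L) ≤ S'.card := by
    have h1 : (η * T * L) * (H * L / (4 * Real.pi)) ≤ S'.card * (Cl * T * L) := by
      refine le_trans ?_ (hsum.trans hsum2)
      exact mul_le_mul hBc hP0l (by positivity) hBpos.le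
    have h2 : 0 < Cl * T * L := by positivity
    have h3 : η * δ / (4 * Real.pi * Cl) * (T * L) * (Cl * T * L) =
        (η * T * L) * (H * L / (4 * Real.pi)) := by
      rw [hH]; field_simp
    rw [← h3] at h1
    exact le_of_mul_le_mul_right h1 h2
  -- the general theorem
  obtain ⟨B', hB'⟩ : ∃ B' : Finset ℝ, B' = B.image (fun b => (-1 : ℝ) * b) := ⟨_, rfl⟩
  have hinj : Function.Injective (fun b : ℝ => (-1 : ℝ) * b) := mul_right_injective₀ (by norm_num)
  have hB'c : B'.card = B.card := by rw [hB']; exact card_image_of_injective _ hinj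
  have hKL : 0 < K * L := by positivity
  have hML : 0 < M * L := by positivity
  have hdS : dens S' ((2 * M + 2 * K) * L) := CORaux.dens_mono hdens (by linarith)
  have hdB' : dens B' ((2 * M + 2 * K) * L) := by
    rw [hB']
    refine CORaux.dens_mono (CORaux.dens_image h.hdB (show (-1 : ℝ) ≠ 0 by norm_num)) ?_
    rw [abs_neg, abs_one, ← hL]
    linarith
  have hδT : 0 < δ * T := by positivity
  have hKT : 0 < K * T := by positivity
  have hcb := abs_le.1 h.hc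
  have hfin := hT1 (K' * T) (by linarith) S' B' ((2 * M + 2 * K) * L) (by
      intro s hs
      have hs' := abs_le.1 (h.hS2 s (hS'S hs))
      rw [abs_le, hK']
      constructor <;> linarith) (by
      intro b' hb'
      rw [hB', mem_image] at hb'
      obtain ⟨b, hb, rfl⟩ := hb'
      have hbb := abs_le.1 (h.hB b hb)
      rw [abs_le, hK']
      constructor <;> linarith) hdS hdB' (by
      rw [hB'c]
      have e1 : η' * (K' * T) ^ 2 * ((2 * M + 2 * K) * L) ^ 2 =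
          (η * δ / (4 * Real.pi * Cl) * (T * L)) * (η * T * L) := by
        have h1 : 2 * M + 2 * K ≠ 0 := by positivity
        rw [hη']; field_simp
      rw [e1]
      exact mul_le_mul hS'l hBc (by positivity) (Nat.cast_nonneg _)) (by
      intro s hs b' hb'
      rw [hB', mem_image] at hb'
      obtain ⟨b, hb, rfl⟩ := hb'
      have hs' := abs_le.1 (h.hS2 s (hS'S hs))
      have hwb := h.hw b hb
      have e1 : κ / K' * (K' * T) = κ * T := by field_simp
      rw [e1]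
      refine le_trans ?_ (le_abs_self _)
      linarith)
  rw [hB'c] at hfin
  have hprod : ∑ x ∈ S' ×ˢ B', (mz |x.1 + x.2| : ℝ) = ∑ b ∈ B, ∑ s ∈ S', (mz (s - b) : ℝ) := by
    rw [Finset.sum_product_right, hB', Finset.sum_image hinj.injOn]
    apply Finset.sum_congr rfl
    intro b hb
    apply Finset.sum_congr rfl
    intro s hs
    have hs' := abs_le.1 (h.hS2 s (hS'S hs))
    have hwb := h.hw b hb
    have e1 : |s + (-1) * b| = s - b := by
      rw [abs_of_nonneg (by linarith)]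
      ring
    show (mz |s + (-1) * b| : ℝ) = mz (s - b)
    rw [e1]
  rw [hprod] at hfin
  have h1 : (B.card : ℝ) * P0 ≤ B.card * ((1 / 2 + ε1) * S'.card) := by
    refine (hsum.trans hfin).trans (le_of_eq ?_)
    ring
  have h2 : P0 ≤ (1 / 2 + ε1) * S'.card := le_of_mul_le_mul_left h1 hBpos
  have h3 : (S'.card : ℝ) ≤ S.card := by exact_mod_cast card_le_card hS'S
  have h4 : (1 / 2 + ε1) * (S'.card : ℝ) ≤ (1 / 2 + ε1) * S.card :=
    mul_le_mul_of_nonneg_left h3 (by positivity)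
  have h5 : (1 / 2 + ε1) * (S.card : ℝ) < (1 / 2 + ε1) * ((1 - ε) * (H * L / Real.pi)) :=
    mul_lt_mul_of_pos_left hcon (by positivity)
  have h6 : (1 / 2 + ε1) * ((1 - ε) * (H * L / Real.pi)) =
      ((1 + 2 * ε1) * (1 - ε)) * (H * L / (2 * Real.pi)) := by ring
  have h7 : P0 < ((1 + 2 * ε1) * (1 - ε)) * (H * L / (2 * Real.pi)) := by linarith
  have h9 : (1 + 2 * ε1) * (1 - ε) ≤ 1 - 2 * ε1 := by
    rw [hε1d]
    nlinarith
  have h8 : ((1 + 2 * ε1) * (1 - ε)) * (H * L / (2 * Real.pi)) ≤ P0 := by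
    rw [hP0]
    exact mul_le_mul_of_nonneg_right h9 (by positivity)
  linarith

end Pool.Agent.TH352.SU
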