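import Pool.Agent.TH352.SU.Fin
import Pool.Agent.H452R4.LI.GI
import Pool.Agent.H452R4.LI.SCH
import Pool.Agent.H452R4.LI.GAU
import Pool.Agent.H452R4.LI.MV
import Pool.Agent.H452R4.LI.BIL
import Pool.Agent.H452R4.LI.PES

/-! RH: the number of distinct values of a linear form at the ordinates up to `T`. -/

set_option autoImplicit false

open Finset Filter

namespace Pool.Agent.TH352.SU

open Pool.Agent.H345R2.AP (mz)
open Pool.Agent.H452R4.LI
open H370

theorem genm_holds : S_GENM := genM gi (bil (mv sch gau)) spl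

theorem lower1 (hRH : RH0) {m : ℕ} (q : Fin m → ℝ) (hq : ∀ i, q i ≠ 0) (j i0 : Fin m)
    (hj : q j = 1) (hij : i0 ≠ j) (ε : ℝ) (hε : 0 < ε) :
    ∃ T1 : ℝ, ∀ T : ℝ, T1 ≤ T →
      (1 - ε) * ((∑ i, |q i|) * (T * Real.log T / Real.pi)) ≤ ((SumSet q T).ncard : ℝ) := by
  classical
  have hpi := Real.pi_pos
  obtain ⟨Q, hQ⟩ : ∃ Q : ℝ, Q = ∑ i, |q i| := ⟨_, rfl⟩
  have hQj : 1 ≤ Q := by
    rw [hQ]
    calc (1 : ℝ) = |q j| := by rw [hj, abs_one]
      _ ≤ _ := single_le_sum (f := fun i => |q i|) (fun i _ => abs_nonneg (q i)) (mem_univ j)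
  obtain ⟨e, he⟩ : ∃ e : ℝ, e = min (ε / 3) (1 / 2) := ⟨_, rfl⟩
  have he0 : 0 < e := by rw [he]; exact lt_min (by positivity) (by norm_num)
  have he1 : e ≤ 1 / 2 := by rw [he]; exact min_le_right _ _
  have he2 : 3 * e ≤ ε := by
    have : e ≤ ε / 3 := by rw [he]; exact min_le_left _ _
    linarith
  obtain ⟨k0, hk0⟩ : ∃ k0 : ℕ, k0 = ⌈2 * Q + 1⌉₊ := ⟨_, rfl⟩
  have hk0' : 2 * Q + 1 ≤ k0 := by rw [hk0]; exact Nat.le_ceil _
  obtain ⟨n, hn⟩ : ∃ n : ℕ, n = ⌈2 * k0 / e⌉₊ + 2 * k0 + 1 := ⟨_, rfl⟩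
  have hn0 : 0 < n := by omega
  have hn' : (0 : ℝ) < n := by exact_mod_cast hn0
  have hn2k : 2 * k0 ≤ n := by omega
  have hne : 2 * (k0 : ℝ) ≤ e * n := by
    have h1 : 2 * (k0 : ℝ) / e ≤ n := by
      have h2 := Nat.le_ceil (2 * (k0 : ℝ) / e)
      have h3 : ((⌈2 * (k0 : ℝ) / e⌉₊ : ℕ) : ℝ) ≤ n := by
        have : ⌈2 * (k0 : ℝ) / e⌉₊ ≤ n := by omega
        exact_mod_cast this
      linarith
    rw [div_le_iff₀ he0] at h1
    linarith
  obtain ⟨δ, hδ⟩ : ∃ δ : ℝ, δ = (1 - e) * Q / n := ⟨_, rfl⟩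
  have hδ0 : 0 < δ := by
    rw [hδ]
    have : 0 < 1 - e := by linarith
    positivity
  have hδn : δ * n = (1 - e) * Q := by rw [hδ]; field_simp
  have hδnQ : δ * n ≤ ∑ i, |q i| := by
    rw [hδn, ← hQ]
    nlinarith
  have hδlt : δ < Q / n := by
    rw [hδ]
    apply div_lt_div_of_pos_right _ hn'
    nlinarith
  obtain ⟨T1, hT1⟩ := window hRH genm_holds q hq j i0 hj hij n k0 hn0 e δ he0 (by linarith) hδ0 hδnQ
    (by rw [← hQ]; exact hk0')
  refine ⟨max T1 1, fun T hT => ?_⟩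
  have gT1 : T1 ≤ T := (le_max_left _ _).trans hT
  have g1 : 1 ≤ T := (le_max_right _ _).trans hT
  have hT0 : 0 < T := by linarith
  have hlT : 0 ≤ Real.log T := Real.log_nonneg g1
  have hfin := SumSet_finite q T
  rw [Set.ncard_eq_toFinset_card _ hfin]
  obtain ⟨FS, hFS⟩ : ∃ FS : Finset ℝ, FS = hfin.toFinset := ⟨_, rfl⟩
  rw [← hFS]
  obtain ⟨S, hS⟩ : ∃ S : ℕ → Finset ℝ, S = fun k => FS.filter (fun x => |x - cen q T n k| ≤ δ * T / 2) :=
    ⟨_, rfl⟩
  have hcard : ∀ k ∈ Finset.Ico k0 (n - k0), (1 - e) * (δ * T * Real.log T / Real.pi) ≤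
      (S k).card := by
    intro k hk
    rw [Finset.mem_Ico] at hk
    apply hT1 T gT1 k hk.1 (by omega)
    · intro x hx hx2
      rw [hS]
      show x ∈ FS.filter _
      rw [mem_filter, hFS, Set.Finite.mem_toFinset]
      exact ⟨hx, hx2⟩
    · intro x hx
      rw [hS] at hx
      exact (mem_filter.1 hx).2
  have hdisj : ∀ k ∈ Finset.Ico k0 (n - k0), ∀ l ∈ Finset.Ico k0 (n - k0), k ≠ l →
      Disjoint (S k) (S l) := by
    intro k _ l _ hkl
    rw [Finset.disjoint_left]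
    intro x hx hx2
    rw [hS] at hx hx2
    have h1 : |x - cen q T n k| ≤ δ * T / 2 := (mem_filter.1 hx).2
    have h2 : |x - cen q T n l| ≤ δ * T / 2 := (mem_filter.1 hx2).2
    have h3 : |cen q T n k - cen q T n l| ≤ δ * T := by
      have e1 := abs_le.1 h1
      have e2 := abs_le.1 h2
      rw [abs_le]; constructor <;> linarith
    rw [cen_sub, ← hQ] at h3
    have h4 : (1 : ℝ) ≤ |(k : ℝ) - l| := by
      have h5 : (1 : ℤ) ≤ |(k : ℤ) - l| := by
        apply Int.one_le_abs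
        omega
      have h6 : ((1 : ℤ) : ℝ) ≤ ((|(k : ℤ) - l| : ℤ) : ℝ) := by exact_mod_cast h5
      push_cast at h6
      exact h6
    have h5 : |Q * T * (((k : ℝ) - l) / n)| = Q / n * T * |(k : ℝ) - l| := by
      rw [abs_mul, abs_div, abs_of_pos (show 0 < Q * T by positivity), abs_of_pos hn']
      ring
    rw [h5] at h3
    have h6 : Q / n * T * 1 ≤ Q / n * T * |(k : ℝ) - l| :=
      mul_le_mul_of_nonneg_left h4 (by positivity)
    have h7 : δ * T < Q / n * T := mul_lt_mul_of_pos_right hδlt hT0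
    linarith
  have hbi : ((Finset.Ico k0 (n - k0)).biUnion S).card = ∑ k ∈ Finset.Ico k0 (n - k0), (S k).card :=
    Finset.card_biUnion hdisj
  have hsub : (Finset.Ico k0 (n - k0)).biUnion S ⊆ FS := by
    intro x hx
    rw [mem_biUnion] at hx
    obtain ⟨k, _, hx⟩ := hx
    rw [hS] at hx
    exact (mem_filter.1 hx).1
  have h1 : ∑ k ∈ Finset.Ico k0 (n - k0), ((S k).card : ℝ) ≤ FS.card := by
    have := card_le_card hsub
    rw [hbi] at this
    exact_mod_cast this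
  have h2 : ((n : ℝ) - 2 * k0) * ((1 - e) * (δ * T * Real.log T / Real.pi)) ≤
      ∑ k ∈ Finset.Ico k0 (n - k0), ((S k).card : ℝ) := by
    have h3 : ∑ k ∈ Finset.Ico k0 (n - k0), (1 - e) * (δ * T * Real.log T / Real.pi) =
        ((n : ℝ) - 2 * k0) * ((1 - e) * (δ * T * Real.log T / Real.pi)) := by
      rw [sum_const, Nat.card_Ico, nsmul_eq_mul]
      congr 1
      have : n - k0 - k0 = n - 2 * k0 := by omega
      rw [this, Nat.cast_sub hn2k]
      push_cast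
      ring
    rw [← h3]
    exact sum_le_sum hcard
  refine le_trans ?_ (h2.trans h1)
  rw [← hQ]
  have h3 : (1 - e) * n ≤ (n : ℝ) - 2 * k0 := by linarith
  have hW : 0 ≤ T * Real.log T / Real.pi := by positivity
  have h1e : 0 ≤ 1 - e := by linarith
  calc (1 - ε) * (Q * (T * Real.log T / Real.pi))
      ≤ (1 - e) ^ 3 * (Q * (T * Real.log T / Real.pi)) := by
        apply mul_le_mul_of_nonneg_right _ (by positivity)
        nlinarith [sq_nonneg e, mul_nonneg (sq_nonneg e) h1e]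
    _ = ((1 - e) * n) * ((1 - e) * (δ * T * Real.log T / Real.pi)) := by
        rw [hδ]; field_simp
    _ ≤ _ := mul_le_mul_of_nonneg_right h3 (by positivity)

theorem lower (hRH : RH0) {m : ℕ} (hm : 2 ≤ m) (r : Fin m → ℝ) (hr : ∀ i, r i ≠ 0) (j : Fin m)
    (ε : ℝ) (hε : 0 < ε) :
    ∃ T1 : ℝ, ∀ T : ℝ, T1 ≤ T →
      (1 - ε) * ((∑ i, |r i|) / |r j| * (T * Real.log T / Real.pi)) ≤
        ((SumSet r T).ncard : ℝ) := by
  obtain ⟨i0, hij⟩ : ∃ i0 : Fin m, i0 ≠ j := by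
    have : Nontrivial (Fin m) := by
      rw [Fin.nontrivial_iff_two_le]; exact hm
    exact exists_ne j
  obtain ⟨T1, hT1⟩ := lower1 hRH (fun i => r i / r j) (fun i => div_ne_zero (hr i) (hr j)) j i0
    (div_self (hr j)) hij ε hε
  refine ⟨T1, fun T hT => ?_⟩
  have h1 := hT1 T hT
  have h2 : ∑ i, |r i / r j| = (∑ i, |r i|) / |r j| := by
    rw [Finset.sum_div]
    exact Finset.sum_congr rfl fun i _ => abs_div _ _
  rw [h2] at h1
  have h3 : SumSet r T = (fun x => r j * x) '' SumSet (fun i => r i / r j) T := by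
    ext x
    constructor
    · rintro ⟨γ, hγ, rfl⟩
      refine ⟨∑ i, r i / r j * γ i, ⟨γ, hγ, rfl⟩, ?_⟩
      show r j * ∑ i, r i / r j * γ i = ∑ i, r i * γ i
      rw [Finset.mul_sum]
      apply Finset.sum_congr rfl
      intro i _
      have := hr j
      field_simp
    · rintro ⟨y, ⟨γ, hγ, rfl⟩, rfl⟩
      refine ⟨γ, hγ, ?_⟩
      show r j * ∑ i, r i / r j * γ i = ∑ i, r i * γ i
      rw [Finset.mul_sum]
      apply Finset.sum_congr rfl
      intro i _
      have := hr j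
      field_simp
  rw [h3, Set.ncard_image_of_injective _ (mul_right_injective₀ (hr j))]
  exact h1

end Pool.Agent.TH352.SU
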